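import Mathlib
import Pool.Graph.R_pool_sql_team_seeded_3997aac3.Q77.Few.Norm

/-!
Averages over random subsets of a finite set.
-/

set_option autoImplicit false

open Finset Filter Topology

namespace Pool.Agent.Helper5.PiFew

open Pool.Agent.H332R2.Lit (e e_add norm_e conj_e norm_one_sub_e)

/-- the weight of the subset `A` of `B`: every element is chosen with probability `p` -/
noncomputable def wt (p : ℝ) (B A : Finset ℕ) : ℝ := p ^ #A * (1 - p) ^ #(B \ A)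

lemma wt_nonneg (p : ℝ) (h0 : 0 ≤ p) (h1 : p ≤ 1) (B A : Finset ℕ) : 0 ≤ wt p B A := by
  unfold wt
  have : 0 ≤ 1 - p := by linarith
  positivity

/-- the product formula -/
lemma sum_wt_prod (p : ℝ) (B : Finset ℕ) (z : ℕ → ℂ) :
    ∑ A ∈ B.powerset, (wt p B A : ℂ) * ∏ j ∈ A, z j = ∏ j ∈ B, ((p : ℂ) * z j + (1 - p)) := by
  rw [Finset.prod_add]
  refine sum_congr rfl fun A _ => ?_
  unfold wt
  rw [Finset.prod_mul_distrib, Finset.prod_const, Finset.prod_const]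
  push_cast
  ring

lemma sum_wt (p : ℝ) (B : Finset ℕ) : ∑ A ∈ B.powerset, wt p B A = 1 := by
  have h := sum_wt_prod p B (fun _ => 1)
  simp only [Finset.prod_const_one, mul_one] at h
  have h2 : (p : ℂ) + (1 - p) = 1 := by ring
  rw [h2, Finset.prod_const_one] at h
  exact_mod_cast h

lemma sum_wt_mem (p : ℝ) (B : Finset ℕ) (j : ℕ) (hj : j ∈ B) :
    ∑ A ∈ B.powerset, wt p B A * (if j ∈ A then 1 else 0) = p := by
  classical
  have h1 : ∀ A ∈ B.powerset, wt p B A * (if j ∈ A then (1 : ℝ) else 0) =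
      (∏ _i ∈ A, p) * ∏ i ∈ B \ A, (if i = j then 0 else 1 - p) := by
    intro A hA
    unfold wt
    by_cases h : j ∈ A
    · rw [if_pos h, mul_one, Finset.prod_const]
      congr 1
      rw [Finset.prod_congr rfl (g := fun _ => 1 - p), Finset.prod_const]
      intro i hi
      rw [if_neg]
      rintro rfl
      exact (mem_sdiff.1 hi).2 h
    · rw [if_neg h, mul_zero]
      symm
      apply mul_eq_zero_of_right
      exact Finset.prod_eq_zero (mem_sdiff.2 ⟨hj, h⟩) (by simp)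
  rw [Finset.sum_congr rfl h1, ← Finset.prod_add]
  rw [← Finset.mul_prod_erase B _ hj]
  rw [Finset.prod_congr rfl (g := fun _ => (1 : ℝ))]
  · simp
  · intro i hi
    rw [if_neg (ne_of_mem_erase hi)]
    ring

lemma sum_wt_card (p : ℝ) (B : Finset ℕ) :
    ∑ A ∈ B.powerset, wt p B A * (#A : ℝ) = p * #B := by
  classical
  have h1 : ∀ A ∈ B.powerset, wt p B A * (#A : ℝ) =
      ∑ j ∈ B, wt p B A * (if j ∈ A then 1 else 0) := by
    intro A hA
    rw [← Finset.mul_sum]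
    congr 1
    rw [Finset.sum_boole]
    congr 2
    ext i
    simp only [mem_filter]
    exact ⟨fun h => ⟨mem_powerset.1 hA h, h⟩, fun h => h.2⟩
  rw [Finset.sum_congr rfl h1, Finset.sum_comm, Finset.sum_congr rfl (fun j hj => sum_wt_mem p B j hj),
    Finset.sum_const, nsmul_eq_mul, mul_comm]

lemma e_zero : e 0 = 1 := by simp [e]

lemma e_sum (S : Finset ℕ) (t : ℕ → ℝ) : e (∑ j ∈ S, t j) = ∏ j ∈ S, e (t j) := by
  classical
  induction S using Finset.induction_on with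
  | empty => simp [e_zero]
  | insert j S hj ih => rw [Finset.sum_insert hj, Finset.prod_insert hj, e_add, ih]

lemma normSq_sum (S : Finset ℕ) (t : ℕ → ℝ) :
    ((‖∑ n ∈ S, e (t n)‖ ^ 2 : ℝ) : ℂ) = ∑ n ∈ S, ∑ m ∈ S, e (t n - t m) := by
  have h := Complex.mul_conj (∑ n ∈ S, e (t n))
  rw [Complex.normSq_eq_norm_sq] at h
  rw [← h, map_sum, Finset.sum_mul_sum]
  refine Finset.sum_congr rfl fun n _ => Finset.sum_congr rfl fun m _ => ?_
  rw [conj_e, ← e_add, sub_eq_add_neg]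

/-- the second moment -/
lemma moment (p : ℝ) (B S : Finset ℕ) (α : ℕ → ℝ) (τ : ℕ → ℕ → ℝ) :
    ∑ A ∈ B.powerset, wt p B A * ‖∑ n ∈ S, e (α n + ∑ j ∈ A, τ n j)‖ ^ 2 ≤
      ∑ n ∈ S, ∑ m ∈ S, ∏ j ∈ B, ‖(p : ℂ) * e (τ n j - τ m j) + (1 - p)‖ := by
  have h1 : ((∑ A ∈ B.powerset, wt p B A * ‖∑ n ∈ S, e (α n + ∑ j ∈ A, τ n j)‖ ^ 2 : ℝ) : ℂ) =
      ∑ n ∈ S, ∑ m ∈ S, e (α n - α m) *
        ∏ j ∈ B, ((p : ℂ) * e (τ n j - τ m j) + (1 - p)) := by
    rw [Complex.ofReal_sum]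
    have h2 : ∀ A ∈ B.powerset,
        ((wt p B A * ‖∑ n ∈ S, e (α n + ∑ j ∈ A, τ n j)‖ ^ 2 : ℝ) : ℂ) =
        ∑ n ∈ S, ∑ m ∈ S, e (α n - α m) * ((wt p B A : ℂ) * ∏ j ∈ A, e (τ n j - τ m j)) := by
      intro A _
      rw [Complex.ofReal_mul, normSq_sum, Finset.mul_sum]
      refine Finset.sum_congr rfl fun n _ => ?_
      rw [Finset.mul_sum]
      refine Finset.sum_congr rfl fun m _ => ?_
      rw [← e_sum, Finset.sum_sub_distrib]
      rw [show α n + ∑ j ∈ A, τ n j - (α m + ∑ j ∈ A, τ m j) =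
        (α n - α m) + (∑ j ∈ A, τ n j - ∑ j ∈ A, τ m j) by ring, e_add]
      ring
    rw [Finset.sum_congr rfl h2, Finset.sum_comm]
    refine Finset.sum_congr rfl fun n _ => ?_
    rw [Finset.sum_comm]
    refine Finset.sum_congr rfl fun m _ => ?_
    rw [← Finset.mul_sum, sum_wt_prod]
  have h3 : ∑ A ∈ B.powerset, wt p B A * ‖∑ n ∈ S, e (α n + ∑ j ∈ A, τ n j)‖ ^ 2 ≤
      ‖((∑ A ∈ B.powerset, wt p B A * ‖∑ n ∈ S, e (α n + ∑ j ∈ A, τ n j)‖ ^ 2 : ℝ) : ℂ)‖ := by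
    rw [Complex.norm_real]
    exact le_abs_self _
  refine h3.trans ?_
  rw [h1]
  refine (norm_sum_le _ _).trans (Finset.sum_le_sum fun n _ => ?_)
  refine (norm_sum_le _ _).trans (Finset.sum_le_sum fun m _ => ?_)
  rw [norm_mul, norm_e, one_mul, norm_prod]

/-- distance to the nearest integer -/
noncomputable def dn (t : ℝ) : ℝ := |t - round t|

lemma dn_nonneg (t : ℝ) : 0 ≤ dn t := abs_nonneg _

lemma factor_sq (p t : ℝ) :
    ‖(p : ℂ) * e t + (1 - p)‖ ^ 2 = 1 - p * (1 - p) * ‖1 - e t‖ ^ 2 := by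
  have he : ‖e t‖ ^ 2 = 1 := by rw [norm_e]; norm_num
  rw [← Complex.normSq_eq_norm_sq, Complex.normSq_apply] at he
  rw [← Complex.normSq_eq_norm_sq, ← Complex.normSq_eq_norm_sq, Complex.normSq_apply,
    Complex.normSq_apply]
  simp only [Complex.add_re, Complex.mul_re, Complex.ofReal_re, Complex.ofReal_im, Complex.sub_re,
    Complex.one_re, Complex.add_im, Complex.mul_im, Complex.sub_im, Complex.one_im]
  ring_nf
  ring_nf at he
  have h2 : (e t).im ^ 2 = 1 - (e t).re ^ 2 := by linarith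
  rw [h2]
  ring

lemma factor_le_one (p : ℝ) (h0 : 0 ≤ p) (h1 : p ≤ 1) (t : ℝ) :
    ‖(p : ℂ) * e t + (1 - p)‖ ≤ 1 := by
  have h := factor_sq p t
  have h2 : 0 ≤ p * (1 - p) * ‖1 - e t‖ ^ 2 := by
    have : 0 ≤ 1 - p := by linarith
    positivity
  have h3 : ‖(p : ℂ) * e t + (1 - p)‖ ^ 2 ≤ 1 ^ 2 := by rw [h]; linarith
  exact (pow_le_pow_iff_left₀ (norm_nonneg _) (by norm_num) two_ne_zero).1 h3

lemma factor_le (p : ℝ) (h0 : 0 ≤ p) (h1 : p ≤ 1 / 2) (t : ℝ) :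
    ‖(p : ℂ) * e t + (1 - p)‖ ≤ Real.exp (-(4 * p * dn t ^ 2)) := by
  have h := factor_sq p t
  have h2 : (4 * dn t) ^ 2 ≤ ‖1 - e t‖ ^ 2 :=
    pow_le_pow_left₀ (by have := dn_nonneg t; positivity) (norm_one_sub_e t) 2
  have h3 : 8 * p * dn t ^ 2 ≤ p * (1 - p) * ‖1 - e t‖ ^ 2 := by
    have h4 : p / 2 ≤ p * (1 - p) := by nlinarith
    calc 8 * p * dn t ^ 2 = p / 2 * (4 * dn t) ^ 2 := by ring
      _ ≤ p * (1 - p) * ‖1 - e t‖ ^ 2 := by
        apply mul_le_mul h4 h2 (by positivity)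
        have : 0 ≤ 1 - p := by linarith
        positivity
  have h5 : ‖(p : ℂ) * e t + (1 - p)‖ ^ 2 ≤ Real.exp (-(4 * p * dn t ^ 2)) ^ 2 := by
    rw [h, ← Real.exp_nat_mul]
    have h6 := Real.add_one_le_exp (((2 : ℕ) : ℝ) * -(4 * p * dn t ^ 2))
    push_cast at h6 ⊢
    linarith
  exact (pow_le_pow_iff_left₀ (norm_nonneg _) (Real.exp_pos _).le two_ne_zero).1 h5

/-- few factors are enough -/
lemma prod_le (p : ℝ) (h0 : 0 ≤ p) (h1 : p ≤ 1 / 2) (B : Finset ℕ) (t : ℕ → ℝ) (η : ℝ)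
    (hη : 0 ≤ η) (l : ℕ) (hl : l ≤ #(B.filter fun j => η ≤ dn (t j))) :
    ∏ j ∈ B, ‖(p : ℂ) * e (t j) + (1 - p)‖ ≤ Real.exp (-(4 * η ^ 2 * (p * l))) := by
  rw [← Finset.prod_filter_mul_prod_filter_not B (fun j => η ≤ dn (t j))]
  have h2 : ∏ j ∈ B.filter (fun j => ¬ η ≤ dn (t j)), ‖(p : ℂ) * e (t j) + (1 - p)‖ ≤ 1 :=
    Finset.prod_le_one (fun _ _ => norm_nonneg _) fun j _ => factor_le_one p h0 (by linarith) _
  have h3 : ∏ j ∈ B.filter (fun j => η ≤ dn (t j)), ‖(p : ℂ) * e (t j) + (1 - p)‖ ≤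
      Real.exp (-(4 * η ^ 2 * (p * l))) := by
    calc _ ≤ ∏ _j ∈ B.filter (fun j => η ≤ dn (t j)), Real.exp (-(4 * p * η ^ 2)) := by
          refine Finset.prod_le_prod (fun _ _ => norm_nonneg _) fun j hj => ?_
          refine (factor_le p h0 h1 _).trans ?_
          rw [Real.exp_le_exp]
          have h4 := (mem_filter.1 hj).2
          have h5 : η ^ 2 ≤ dn (t j) ^ 2 := pow_le_pow_left₀ hη h4 2
          nlinarith
      _ = Real.exp (-(4 * p * η ^ 2)) ^ #(B.filter fun j => η ≤ dn (t j)) := by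
          rw [Finset.prod_const]
      _ ≤ Real.exp (-(4 * p * η ^ 2)) ^ l := by
          apply pow_le_pow_of_le_one (Real.exp_pos _).le _ hl
          rw [Real.exp_le_one_iff]
          have : 0 ≤ 4 * p * η ^ 2 := by positivity
          linarith
      _ = Real.exp (-(4 * η ^ 2 * (p * l))) := by
          rw [← Real.exp_nat_mul]
          congr 1
          ring
  calc _ ≤ Real.exp (-(4 * η ^ 2 * (p * l))) * 1 :=
        mul_le_mul h3 h2 (Finset.prod_nonneg fun _ _ => norm_nonneg _) (Real.exp_pos _).le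
    _ = _ := mul_one _

end Pool.Agent.Helper5.PiFew
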