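import Mathlib
import Pool.Agent.Helper5.PiFew.Avg

/-!
Places where the multiples by powers of the base are far from the integers.
-/

set_option autoImplicit false

open Finset Filter Topology

namespace Pool.Agent.Helper5.PiFew

lemma dn_le_half (t : ℝ) : dn t ≤ 1 / 2 := abs_sub_round t

lemma dn_le_abs_sub (t : ℝ) (z : ℤ) : dn t ≤ |t - z| := round_le t z

lemma dn_sub_le (s t : ℝ) : dn s ≤ dn t + |s - t| := by
  calc dn s ≤ |s - round t| := dn_le_abs_sub s _
    _ = |(s - t) + (t - round t)| := by congr 1; ring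
    _ ≤ |s - t| + |t - round t| := abs_add_le _ _
    _ = dn t + |s - t| := by unfold dn; ring

lemma dn_neg (t : ℝ) : dn (-t) = dn t := by
  apply le_antisymm
  · have h := dn_le_abs_sub (-t) (-round t)
    have h2 : |-t - ((-round t : ℤ) : ℝ)| = |t - round t| := by
      rw [← abs_neg]; congr 1; push_cast; ring
    rw [h2] at h
    exact h
  · have h := dn_le_abs_sub t (-round (-t))
    have h2 : |t - ((-round (-t) : ℤ) : ℝ)| = |-t - round (-t)| := by
      rw [← abs_neg]; congr 1; push_cast; ring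
    rw [h2] at h
    exact h

lemma dn_mul (b : ℕ) (hb : 2 ≤ b) (t : ℝ) (h : dn t < 1 / (2 * b)) :
    dn (b * t) = b * dn t := by
  have hb0 : (0 : ℝ) < b := by exact_mod_cast (by omega : 0 < b)
  have h1 : |(b : ℝ) * t - ((b * round t : ℤ) : ℝ)| = b * dn t := by
    unfold dn
    rw [← abs_of_pos hb0, ← abs_mul, abs_of_pos hb0]
    congr 1
    push_cast
    ring
  have h2 : (b : ℝ) * dn t < 1 / 2 := by
    calc (b : ℝ) * dn t < b * (1 / (2 * b)) := by gcongr
      _ = 1 / 2 := by field_simp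
  have h3 := dn_le_abs_sub (b * t) (b * round t)
  rw [h1] at h3
  have h4 : round ((b : ℝ) * t) = b * round t := by
    have h5 : |((round ((b : ℝ) * t) : ℤ) : ℝ) - ((b * round t : ℤ) : ℝ)| < 1 := by
      calc |((round ((b : ℝ) * t) : ℤ) : ℝ) - ((b * round t : ℤ) : ℝ)|
          = |-((b : ℝ) * t - round ((b : ℝ) * t)) + ((b : ℝ) * t - ((b * round t : ℤ) : ℝ))| := by
            congr 1; ring
        _ ≤ |-((b : ℝ) * t - round ((b : ℝ) * t))| + |(b : ℝ) * t - ((b * round t : ℤ) : ℝ)| :=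
            abs_add_le _ _
        _ = dn (b * t) + b * dn t := by rw [abs_neg, h1]; rfl
        _ < 1 := by linarith
    rw [← Int.cast_sub] at h5
    have h6 : |round ((b : ℝ) * t) - b * round t| < 1 := by exact_mod_cast h5
    have h7 := Int.abs_lt_one_iff.1 h6
    omega
  unfold dn at h1 ⊢
  rw [h4]
  exact h1

/-- the distances grow until one is large -/
lemma window (b : ℕ) (hb : 2 ≤ b) (θ : ℝ) (n₀ C : ℕ)
    (H : ∀ k : ℕ, 1 / (b : ℝ) ^ (n₀ * (k + C)) ≤ dn ((b : ℝ) ^ k * θ)) (K : ℕ) :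
    ∃ k, K ≤ k ∧ k ≤ K + n₀ * (K + C) ∧ 1 / (2 * (b : ℝ)) ≤ dn ((b : ℝ) ^ k * θ) := by
  by_contra hcon
  push Not at hcon
  have hb0 : (0 : ℝ) < b := by exact_mod_cast (by omega : 0 < b)
  have hgrow : ∀ L : ℕ, L ≤ n₀ * (K + C) + 1 →
      dn ((b : ℝ) ^ (K + L) * θ) = (b : ℝ) ^ L * dn ((b : ℝ) ^ K * θ) := by
    intro L
    induction L with
    | zero => intro _; simp
    | succ L ih =>
      intro hL
      have h1 := ih (by omega)
      have h2 := hcon (K + L) (by omega) (by omega)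
      have h3 := dn_mul b hb _ h2
      rw [h1] at h3
      rw [show (b : ℝ) ^ (K + (L + 1)) * θ = b * ((b : ℝ) ^ (K + L) * θ) by ring, h3]
      ring
  have h1 := hgrow _ le_rfl
  have h2 := H K
  have h3 := dn_le_half ((b : ℝ) ^ (K + (n₀ * (K + C) + 1)) * θ)
  rw [h1] at h3
  have h4 : (b : ℝ) ^ (n₀ * (K + C) + 1) * (1 / (b : ℝ) ^ (n₀ * (K + C))) ≤ 1 / 2 :=
    le_trans (mul_le_mul_of_nonneg_left h2 (by positivity)) h3
  have h5 : (b : ℝ) ^ (n₀ * (K + C) + 1) * (1 / (b : ℝ) ^ (n₀ * (K + C))) = b := by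
    rw [pow_succ]; field_simp
  rw [h5] at h4
  have : (2 : ℝ) ≤ b := by exact_mod_cast hb
  linarith

/-- the number of places with a large distance -/
lemma count (b : ℕ) (hb : 2 ≤ b) (θ : ℝ) (n₀ C : ℕ)
    (H : ∀ k : ℕ, 1 / (b : ℝ) ^ (n₀ * (k + C)) ≤ dn ((b : ℝ) ^ k * θ)) (l : ℕ) :
    ∀ R : ℕ, (n₀ + 1) ^ l * (C + 1) ≤ R + C + 1 →
      l ≤ #((range R).filter fun k => 1 / (2 * (b : ℝ)) ≤ dn ((b : ℝ) ^ k * θ)) := by
  induction l with
  | zero => intro R _; omega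
  | succ l ih =>
    intro R hR
    have hpos : 1 ≤ (n₀ + 1) ^ l := Nat.one_le_pow _ _ (by omega)
    have h0 : C + 1 ≤ (n₀ + 1) ^ l * (C + 1) := by nlinarith
    obtain ⟨R', hR'⟩ : ∃ R', (n₀ + 1) ^ l * (C + 1) = R' + C + 1 := ⟨(n₀ + 1) ^ l * (C + 1) - (C + 1), by omega⟩
    have h1 := ih R' (by omega)
    obtain ⟨k, hk1, hk2, hk3⟩ := window b hb θ n₀ C H R'
    have h2 : (n₀ + 1) * (R' + C + 1) ≤ R + C + 1 := by
      rw [← hR']
      calc (n₀ + 1) * ((n₀ + 1) ^ l * (C + 1)) = (n₀ + 1) ^ (l + 1) * (C + 1) := by ring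
        _ ≤ _ := hR
    have h3 : k < R ∨ n₀ = 0 := by
      rcases Nat.eq_zero_or_pos n₀ with h | h
      · exact Or.inr h
      · left
        nlinarith
    rcases h3 with h3 | h3
    · have h4 : insert k ((range R').filter fun k => 1 / (2 * (b : ℝ)) ≤ dn ((b : ℝ) ^ k * θ)) ⊆
          (range R).filter fun k => 1 / (2 * (b : ℝ)) ≤ dn ((b : ℝ) ^ k * θ) := by
        intro i hi
        rw [mem_insert] at hi
        rcases hi with rfl | hi
        · exact mem_filter.2 ⟨mem_range.2 h3, hk3⟩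
        · rw [mem_filter, mem_range] at hi ⊢
          exact ⟨by omega, hi.2⟩
      have h5 := card_le_card h4
      rw [card_insert_of_notMem] at h5
      · omega
      · intro hmem
        have := mem_range.1 (mem_filter.1 hmem).1
        omega
    · exfalso
      subst h3
      have h6 := H 0
      have h7 := dn_le_half ((b : ℝ) ^ 0 * θ)
      norm_num at h6 h7
      linarith

/-- irrational numbers which are not Liouville numbers -/
lemma measure_of_not_liouville (x : ℝ) (hx : Irrational x) (hL : ¬ Liouville x) :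
    ∃ n₀ : ℕ, ∀ q : ℤ, q ≠ 0 → 1 / (2 * |(q : ℝ)|) ^ n₀ ≤ dn (q * x) := by
  unfold Liouville at hL
  push Not at hL
  obtain ⟨n₀, hn⟩ := hL
  refine ⟨n₀, fun q hq => ?_⟩
  have key : ∀ q : ℤ, 0 < q → 1 / (2 * |(q : ℝ)|) ^ n₀ ≤ dn (q * x) := by
    intro q hq
    have hq0 : (0 : ℝ) < q := by exact_mod_cast hq
    have hq1 : (1 : ℝ) ≤ q := by exact_mod_cast hq
    have h1 := hn (2 * round (q * x)) (2 * q) (by omega) (by
      intro h
      apply hx
      refine ⟨((2 * round (q * x) : ℤ) : ℚ) / ((2 * q : ℤ) : ℚ), ?_⟩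
      refine Eq.trans ?_ h.symm
      push_cast
      rfl)
    rw [abs_of_pos hq0]
    push_cast at h1
    refine h1.trans ?_
    have h2 : x - 2 * (round ((q : ℝ) * x) : ℝ) / (2 * q) = (q * x - round ((q : ℝ) * x)) / q := by
      field_simp
    rw [h2, abs_div, abs_of_pos hq0]
    exact div_le_self (abs_nonneg _) hq1
  rcases lt_or_gt_of_ne hq with h | h
  · have h1 := key (-q) (by omega)
    have h2 : ((-q : ℤ) : ℝ) * x = -(q * x) := by push_cast; ring
    rw [h2, dn_neg] at h1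
    have h3 : |((-q : ℤ) : ℝ)| = |(q : ℝ)| := by push_cast; rw [abs_neg]
    rw [h3] at h1
    exact h1
  · exact key q h

/-- powers of the base -/
lemma measure_pow (b : ℕ) (hb : 2 ≤ b) (x : ℝ) (n₀ : ℕ)
    (H : ∀ q : ℤ, q ≠ 0 → 1 / (2 * |(q : ℝ)|) ^ n₀ ≤ dn (q * x)) (q : ℤ) (hq : q ≠ 0) (C : ℕ)
    (hC : 2 * |(q : ℝ)| ≤ (b : ℝ) ^ C) (k : ℕ) :
    1 / (b : ℝ) ^ (n₀ * (k + C)) ≤ dn ((b : ℝ) ^ k * (q * x)) := by
  have hb0 : (0 : ℝ) < b := by exact_mod_cast (by omega : 0 < b)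
  have hbz : (b : ℤ) ≠ 0 := by exact_mod_cast (by omega : b ≠ 0)
  have h1 := H ((b : ℤ) ^ k * q) (mul_ne_zero (pow_ne_zero _ hbz) hq)
  have h2 : (((b : ℤ) ^ k * q : ℤ) : ℝ) * x = (b : ℝ) ^ k * (q * x) := by push_cast; ring
  rw [h2] at h1
  refine le_trans ?_ h1
  have hq0 : (0 : ℝ) < |(q : ℝ)| := abs_pos.2 (by exact_mod_cast hq)
  have h3 : 2 * |(((b : ℤ) ^ k * q : ℤ) : ℝ)| ≤ (b : ℝ) ^ (k + C) := by
    push_cast
    rw [abs_mul, abs_of_pos (pow_pos hb0 k), pow_add]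
    nlinarith [pow_pos hb0 k]
  have h4 : 0 < 2 * |(((b : ℤ) ^ k * q : ℤ) : ℝ)| := by
    push_cast
    rw [abs_mul, abs_of_pos (pow_pos hb0 k)]
    positivity
  apply one_div_le_one_div_of_le (by positivity)
  rw [mul_comm n₀, pow_mul]
  gcongr

end Pool.Agent.Helper5.PiFew
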