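import Mathlib
import Pool.Agent.Helper5.PiFew.Win

/-!
The second moment of the exponential sum over a block of places.
-/

set_option autoImplicit false

open Finset Filter Topology

namespace Pool.Agent.Helper5.PiFew

open Pool.Agent.H332R2.Lit (e e_add norm_e conj_e norm_one_sub_e)

/-- the phase difference produced by the place `j` -/
noncomputable def ph (b : ℕ) (h : ℤ) (x : ℝ) (n m j : ℕ) : ℝ :=
  h * ((b : ℝ) ^ n - (b : ℝ) ^ m) * x / (b : ℝ) ^ (j + 1)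

lemma ph_swap (b : ℕ) (h : ℤ) (x : ℝ) (n m j : ℕ) : ph b h x m n j = -ph b h x n m j := by
  unfold ph; ring

lemma pair_far (b : ℕ) (hb : 2 ≤ b) (x : ℝ) (n₀ : ℕ)
    (H : ∀ q : ℤ, q ≠ 0 → 1 / (2 * |(q : ℝ)|) ^ n₀ ≤ dn (q * x)) (h : ℤ) (hh : h ≠ 0)
    (C1 C2 : ℕ) (hC1 : 2 * |(h : ℝ)| ≤ (b : ℝ) ^ C1) (hC2 : 4 * b * |(h : ℝ) * x| ≤ (b : ℝ) ^ C2)
    (N M m n l : ℕ) (hm : N ≤ m) (hmn : m < n) (hn : n < N + M)
    (hl : (n₀ + 1) ^ l * (C1 + 1) + C2 ≤ n - m) :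
    l ≤ #((Ico N (N + M)).filter fun j => 1 / (4 * (b : ℝ)) ≤ dn (ph b h x n m j)) := by
  have hb0 : (0 : ℝ) < b := by exact_mod_cast (by omega : 0 < b)
  have h1 := count b hb (h * x) n₀ C1 (fun k => measure_pow b hb x n₀ H h hh C1 hC1 k) l
    (n - m - C2) (by omega)
  refine h1.trans (card_le_card_of_injOn (fun k => n - 1 - k) ?_ ?_)
  · intro k hk
    rw [Finset.mem_coe, mem_filter, mem_range] at hk
    obtain ⟨hk1, hk2⟩ := hk
    rw [Finset.mem_coe, mem_filter, mem_Ico]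
    beta_reduce
    refine ⟨⟨by omega, by omega⟩, ?_⟩
    have h2 : ph b h x n m (n - 1 - k) = (b : ℝ) ^ k * (h * x) - h * x / (b : ℝ) ^ (n - m - k) := by
      unfold ph
      have e1 : (b : ℝ) ^ n = (b : ℝ) ^ k * (b : ℝ) ^ (n - 1 - k + 1) := by
        rw [← pow_add]; congr 1; omega
      have e2 : (b : ℝ) ^ (n - 1 - k + 1) = (b : ℝ) ^ m * (b : ℝ) ^ (n - m - k) := by
        rw [← pow_add]; congr 1; omega
      rw [e1, e2]
      field_simp
    rw [h2]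
    have h3 : |h * x / (b : ℝ) ^ (n - m - k)| ≤ 1 / (4 * b) := by
      rw [abs_div, abs_of_pos (pow_pos hb0 _), div_le_div_iff₀ (pow_pos hb0 _) (by positivity)]
      calc |(h : ℝ) * x| * (4 * b) = 4 * b * |(h : ℝ) * x| := by ring
        _ ≤ (b : ℝ) ^ C2 := hC2
        _ ≤ (b : ℝ) ^ (n - m - k) := by
          apply pow_le_pow_right₀
          · exact_mod_cast (by omega : 1 ≤ b)
          · omega
        _ = 1 * (b : ℝ) ^ (n - m - k) := by ring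
    have h4 := dn_sub_le ((b : ℝ) ^ k * (h * x))
      ((b : ℝ) ^ k * (h * x) - h * x / (b : ℝ) ^ (n - m - k))
    rw [sub_sub_cancel] at h4
    have h5 : 1 / (2 * (b : ℝ)) = 1 / (4 * b) + 1 / (4 * b) := by field_simp; norm_num
    linarith
  · intro k hk k' hk' hkk
    rw [Finset.mem_coe, mem_filter, mem_range] at hk hk'
    simp only at hkk
    omega

lemma pair_near (b : ℕ) (hb : 2 ≤ b) (x : ℝ) (n₀ : ℕ)
    (H : ∀ q : ℤ, q ≠ 0 → 1 / (2 * |(q : ℝ)|) ^ n₀ ≤ dn (q * x)) (h : ℤ) (hh : h ≠ 0)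
    (C1 : ℕ) (hC1 : 2 * |(h : ℝ)| ≤ (b : ℝ) ^ C1)
    (N M m n l : ℕ) (hm : N ≤ m) (hmn : m < n) (hn : n < N + M)
    (hl : (n₀ + 1) ^ l * (C1 + (n - m) + 1) ≤ m - N) :
    l ≤ #((Ico N (N + M)).filter fun j => 1 / (4 * (b : ℝ)) ≤ dn (ph b h x n m j)) := by
  have hb0 : (0 : ℝ) < b := by exact_mod_cast (by omega : 0 < b)
  have hb1 : (2 : ℝ) ≤ b := by exact_mod_cast hb
  have hbz : (2 : ℤ) ≤ b := by exact_mod_cast hb
  have hd : (1 : ℝ) < (b : ℝ) ^ (n - m) := one_lt_pow₀ (by linarith) (by omega)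
  have hq : h * ((b : ℤ) ^ (n - m) - 1) ≠ 0 := by
    apply mul_ne_zero hh
    have h1 : ((1 : ℤ) : ℝ) < (((b : ℤ) ^ (n - m) : ℤ) : ℝ) := by push_cast; exact hd
    have h2 : (1 : ℤ) < (b : ℤ) ^ (n - m) := by exact_mod_cast h1
    omega
  have hC : 2 * |((h * ((b : ℤ) ^ (n - m) - 1) : ℤ) : ℝ)| ≤ (b : ℝ) ^ (C1 + (n - m)) := by
    push_cast
    rw [abs_mul, abs_of_pos (by linarith : (0 : ℝ) < (b : ℝ) ^ (n - m) - 1), pow_add]
    have h3 : 0 ≤ 2 * |(h : ℝ)| := by positivity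
    nlinarith
  have h1 := count b hb _ n₀ (C1 + (n - m))
    (fun k => measure_pow b hb x n₀ H _ hq (C1 + (n - m)) hC k) l (m - N) (by omega)
  refine h1.trans (card_le_card_of_injOn (fun k => m - 1 - k) ?_ ?_)
  · intro k hk
    rw [Finset.mem_coe, mem_filter, mem_range] at hk
    obtain ⟨hk1, hk2⟩ := hk
    rw [Finset.mem_coe, mem_filter, mem_Ico]
    beta_reduce
    refine ⟨⟨by omega, by omega⟩, ?_⟩
    have h2 : ph b h x n m (m - 1 - k) =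
        (b : ℝ) ^ k * (((h * ((b : ℤ) ^ (n - m) - 1) : ℤ) : ℝ) * x) := by
      unfold ph
      have e1 : (b : ℝ) ^ n = (b : ℝ) ^ m * (b : ℝ) ^ (n - m) := by
        rw [← pow_add]; congr 1; omega
      have e2 : (b : ℝ) ^ m = (b : ℝ) ^ k * (b : ℝ) ^ (m - 1 - k + 1) := by
        rw [← pow_add]; congr 1; omega
      rw [e1, e2]
      push_cast
      field_simp
    rw [h2]
    refine le_trans ?_ hk2
    apply one_div_le_one_div_of_le (by positivity)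
    linarith
  · intro k hk k' hk' hkk
    rw [Finset.mem_coe, mem_filter, mem_range] at hk hk'
    simp only at hkk
    omega

/-- the second moment -/
lemma block_moment (b : ℕ) (hb : 2 ≤ b) (x : ℝ) (n₀ : ℕ)
    (H : ∀ q : ℤ, q ≠ 0 → 1 / (2 * |(q : ℝ)|) ^ n₀ ≤ dn (q * x)) (h : ℤ) (hh : h ≠ 0)
    (C1 C2 : ℕ) (hC1 : 2 * |(h : ℝ)| ≤ (b : ℝ) ^ C1) (hC2 : 4 * b * |(h : ℝ) * x| ≤ (b : ℝ) ^ C2)
    (r R l : ℕ) (hr : (n₀ + 1) ^ l * (C1 + 1) + C2 ≤ r) (hR : (n₀ + 1) ^ l * (C1 + r + 1) ≤ R)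
    (p : ℝ) (hp0 : 0 ≤ p) (hp1 : p ≤ 1 / 2) (N M : ℕ) (c y : ℝ) (σ : ℕ → ℝ)
    (hσ : ∀ j, σ j = 1 ∨ σ j = -1) :
    ∑ A ∈ (Ico N (N + M)).powerset, wt p (Ico N (N + M)) A *
      ‖∑ n ∈ Ico N (N + M), e (h * ((b : ℝ) ^ n *
        (x * (y + ∑ j ∈ A, σ j / (b : ℝ) ^ (j + 1)) + c)))‖ ^ 2 ≤
      M + 2 * R * M + (M : ℝ) ^ 2 * Real.exp (-(p * l / (4 * (b : ℝ) ^ 2))) := by
  have hb0 : (0 : ℝ) < b := by exact_mod_cast (by omega : 0 < b)
  set B := Ico N (N + M) with hB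
  have hcard : (#B : ℝ) = M := by rw [hB, Nat.card_Ico]; congr 1; omega
  have h1 := moment p B B (fun n => h * ((b : ℝ) ^ n * (x * y + c)))
    (fun n j => h * (b : ℝ) ^ n * x * σ j / (b : ℝ) ^ (j + 1))
  have h2 : ∀ A ∈ B.powerset, ∀ n ∈ B, (h : ℝ) * ((b : ℝ) ^ n *
        (x * (y + ∑ j ∈ A, σ j / (b : ℝ) ^ (j + 1)) + c)) =
      h * ((b : ℝ) ^ n * (x * y + c)) + ∑ j ∈ A, h * (b : ℝ) ^ n * x * σ j / (b : ℝ) ^ (j + 1) := by
    intro A _ n _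
    have : ∑ j ∈ A, h * (b : ℝ) ^ n * x * σ j / (b : ℝ) ^ (j + 1) =
        h * (b : ℝ) ^ n * x * ∑ j ∈ A, σ j / (b : ℝ) ^ (j + 1) := by
      rw [Finset.mul_sum]
      refine Finset.sum_congr rfl fun j _ => by ring
    rw [this]
    ring
  have h3 : ∑ A ∈ B.powerset, wt p B A * ‖∑ n ∈ B, e (h * ((b : ℝ) ^ n *
        (x * (y + ∑ j ∈ A, σ j / (b : ℝ) ^ (j + 1)) + c)))‖ ^ 2 =
      ∑ A ∈ B.powerset, wt p B A * ‖∑ n ∈ B, e (h * ((b : ℝ) ^ n * (x * y + c)) +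
        ∑ j ∈ A, h * (b : ℝ) ^ n * x * σ j / (b : ℝ) ^ (j + 1))‖ ^ 2 := by
    refine Finset.sum_congr rfl fun A hA => ?_
    rw [Finset.sum_congr rfl fun n hn => by rw [h2 A hA n hn]]
  rw [h3]
  refine h1.trans ?_
  set E := Real.exp (-(p * l / (4 * (b : ℝ) ^ 2))) with hE
  have hE0 : 0 ≤ E := (Real.exp_pos _).le
  -- the phases
  have hphase : ∀ n m j : ℕ, dn (h * (b : ℝ) ^ n * x * σ j / (b : ℝ) ^ (j + 1) -
      h * (b : ℝ) ^ m * x * σ j / (b : ℝ) ^ (j + 1)) = dn (ph b h x n m j) := by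
    intro n m j
    rcases hσ j with hj | hj
    · congr 1
      rw [hj]; unfold ph; ring
    · rw [← dn_neg]
      congr 1
      rw [hj]; unfold ph; ring
  have key : ∀ n ∈ B, ∀ m ∈ B, m < n → N + R ≤ m →
      l ≤ #(B.filter fun j => 1 / (4 * (b : ℝ)) ≤ dn (ph b h x n m j)) := by
    intro n hn m hm hmn hRm
    rw [hB, mem_Ico] at hn hm
    rcases Nat.lt_or_ge (n - m) r with h | h
    · apply pair_near b hb x n₀ H _ hh C1 hC1 N M m n l hm.1 hmn hn.2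
      calc (n₀ + 1) ^ l * (C1 + (n - m) + 1) ≤ (n₀ + 1) ^ l * (C1 + r + 1) := by gcongr
        _ ≤ R := hR
        _ ≤ m - N := by omega
    · exact pair_far b hb x n₀ H _ hh C1 C2 hC1 hC2 N M m n l hm.1 hmn hn.2 (hr.trans h)
  have hexp : -(4 * (1 / (4 * (b : ℝ))) ^ 2 * (p * l)) = -(p * l / (4 * (b : ℝ) ^ 2)) := by
    field_simp
  have hterm : ∀ n ∈ B, ∀ m ∈ B,
      ∏ j ∈ B, ‖(p : ℂ) * e (h * (b : ℝ) ^ n * x * σ j / (b : ℝ) ^ (j + 1) -
        h * (b : ℝ) ^ m * x * σ j / (b : ℝ) ^ (j + 1)) + (1 - p)‖ ≤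
      (if n = m then (1 : ℝ) else 0) + (if n < N + R then 1 else 0) +
        (if m < N + R then 1 else 0) + E := by
    intro n hn m hm
    have hone : ∏ j ∈ B, ‖(p : ℂ) * e (h * (b : ℝ) ^ n * x * σ j / (b : ℝ) ^ (j + 1) -
        h * (b : ℝ) ^ m * x * σ j / (b : ℝ) ^ (j + 1)) + (1 - p)‖ ≤ 1 :=
      Finset.prod_le_one (fun _ _ => norm_nonneg _) fun j _ => factor_le_one p hp0 (by linarith) _
    have i1 : (0 : ℝ) ≤ (if n = m then (1 : ℝ) else 0) := by split_ifs <;> norm_num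
    have i2 : (0 : ℝ) ≤ (if n < N + R then (1 : ℝ) else 0) := by split_ifs <;> norm_num
    have i3 : (0 : ℝ) ≤ (if m < N + R then (1 : ℝ) else 0) := by split_ifs <;> norm_num
    by_cases c1 : n = m
    · rw [if_pos c1]; linarith
    by_cases c2 : n < N + R
    · rw [if_pos c2]; linarith
    by_cases c3 : m < N + R
    · rw [if_pos c3]; linarith
    have hl : l ≤ #(B.filter fun j => 1 / (4 * (b : ℝ)) ≤
        dn (h * (b : ℝ) ^ n * x * σ j / (b : ℝ) ^ (j + 1) -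
          h * (b : ℝ) ^ m * x * σ j / (b : ℝ) ^ (j + 1))) := by
      simp only [hphase]
      rcases lt_or_gt_of_ne c1 with c | c
      · have h4 := key m hm n hn c (by omega)
        simp only [ph_swap b h x n m, dn_neg] at h4
        exact h4
      · exact key n hn m hm c (by omega)
    have h5 := prod_le p hp0 hp1 B (fun j => h * (b : ℝ) ^ n * x * σ j / (b : ℝ) ^ (j + 1) -
        h * (b : ℝ) ^ m * x * σ j / (b : ℝ) ^ (j + 1)) (1 / (4 * b)) (by positivity) l hl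
    rw [hexp] at h5
    linarith
  refine (Finset.sum_le_sum fun n hn => Finset.sum_le_sum fun m hm => hterm n hn m hm).trans ?_
  have hcount : (∑ m ∈ B, if m < N + R then (1 : ℝ) else 0) ≤ R := by
    rw [Finset.sum_boole]
    have h6 : B.filter (fun m => m < N + R) ⊆ Ico N (N + R) := by
      intro i hi
      rw [mem_filter, hB, mem_Ico] at hi
      rw [mem_Ico]
      exact ⟨hi.1.1, hi.2⟩
    have h7 := card_le_card h6
    rw [Nat.card_Ico] at h7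
    exact_mod_cast (by omega : #(B.filter fun m => m < N + R) ≤ R)
  have s1 : ∑ n ∈ B, ∑ m ∈ B, (if n = m then (1 : ℝ) else 0) = M := by
    rw [Finset.sum_congr rfl (g := fun _ => (1 : ℝ))]
    · rw [Finset.sum_const, nsmul_eq_mul, hcard, mul_one]
    · intro n hn
      rw [Finset.sum_ite_eq, if_pos hn]
  have s2 : ∑ n ∈ B, ∑ _m ∈ B, (if n < N + R then (1 : ℝ) else 0) ≤ R * M := by
    rw [Finset.sum_comm]
    calc _ ≤ ∑ _m ∈ B, (R : ℝ) := Finset.sum_le_sum fun _ _ => hcount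
      _ = R * M := by rw [Finset.sum_const, nsmul_eq_mul, hcard, mul_comm]
  have s3 : ∑ _n ∈ B, ∑ m ∈ B, (if m < N + R then (1 : ℝ) else 0) ≤ R * M := by
    calc _ ≤ ∑ _m ∈ B, (R : ℝ) := Finset.sum_le_sum fun _ _ => hcount
      _ = R * M := by rw [Finset.sum_const, nsmul_eq_mul, hcard, mul_comm]
  have s4 : ∑ _n ∈ B, ∑ _m ∈ B, E = (M : ℝ) ^ 2 * E := by
    rw [Finset.sum_const, Finset.sum_const, nsmul_eq_mul, nsmul_eq_mul, hcard]
    ring
  simp only [Finset.sum_add_distrib]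
  rw [s1, s4]
  linarith

end Pool.Agent.Helper5.PiFew
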