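import Mathlib
import Pool.Agent.Helper5.PiFew.Pair

/-!
The second moment is small for long blocks.
-/

set_option autoImplicit false

open Finset Filter Topology

namespace Pool.Agent.Helper5.PiFew

open Pool.Agent.H332R2.Lit (e e_add norm_e conj_e norm_one_sub_e)

/-- the second moment on the `i`-th block is at most `ε` times the square of the length -/
def Sm (b : ℕ) (x : ℝ) (h : ℤ) (p : ℝ) (i : ℕ) (ε : ℝ) : Prop :=
  ∀ (c y : ℝ) (σ : ℕ → ℝ), (∀ j, σ j = 1 ∨ σ j = -1) →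
    ∑ A ∈ (Ico (i ^ 2) (i ^ 2 + (2 * i + 1))).powerset,
      wt p (Ico (i ^ 2) (i ^ 2 + (2 * i + 1))) A *
      ‖∑ n ∈ Ico (i ^ 2) (i ^ 2 + (2 * i + 1)), e (h * ((b : ℝ) ^ n *
        (x * (y + ∑ j ∈ A, σ j / (b : ℝ) ^ (j + 1)) + c)))‖ ^ 2 ≤
      ε * ((2 * i + 1 : ℕ) : ℝ) ^ 2

lemma exists_le_pow (b : ℕ) (hb : 2 ≤ b) (t : ℝ) : ∃ C : ℕ, t ≤ (b : ℝ) ^ C := by
  obtain ⟨C, hC⟩ := pow_unbounded_of_one_lt t (by exact_mod_cast (by omega : 1 < b) : (1 : ℝ) < b)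
  exact ⟨C, hC.le⟩

lemma tendsto_log2 : Tendsto (fun i : ℕ => Nat.log 2 i) atTop atTop := by
  rw [tendsto_atTop]
  intro m
  filter_upwards [eventually_ge_atTop (2 ^ m)] with i hi
  exact Nat.le_log_of_pow_le (by norm_num) hi

theorem moment_small (b : ℕ) (hb : 2 ≤ b) (x : ℝ) (n₀ : ℕ)
    (H : ∀ q : ℤ, q ≠ 0 → 1 / (2 * |(q : ℝ)|) ^ n₀ ≤ dn (q * x)) (h : ℤ) (hh : h ≠ 0)
    (p : ℕ → ℝ) (hp0 : ∀ i, 0 ≤ p i) (hp1 : ∀ i, p i ≤ 1 / 2)
    (hp : Tendsto (fun i => p i * Nat.log 2 i) atTop atTop) (ε : ℝ) (hε : 0 < ε) :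
    ∀ᶠ i : ℕ in atTop, Sm b x h (p i) i ε := by
  obtain ⟨C1, hC1⟩ := exists_le_pow b hb (2 * |(h : ℝ)|)
  obtain ⟨C2, hC2⟩ := exists_le_pow b hb (4 * b * |(h : ℝ) * x|)
  have hb0 : (0 : ℝ) < b := by exact_mod_cast (by omega : 0 < b)
  set w := n₀ + 1 with hw
  have hw2 : n₀ + 1 ≤ 2 ^ w := by rw [hw]; exact (Nat.lt_two_pow_self).le
  -- the exponents
  have hk : Tendsto (fun i : ℕ => Nat.log 2 i / 8) atTop atTop := by
    rw [tendsto_atTop]
    intro m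
    filter_upwards [tendsto_atTop.1 tendsto_log2 (8 * m)] with i hi
    omega
  have hpow : Tendsto (fun i : ℕ => (16 : ℝ) ^ (Nat.log 2 i / 8)) atTop atTop :=
    (tendsto_pow_atTop_atTop_of_one_lt (by norm_num)).comp hk
  have hE : ∀ᶠ i : ℕ in atTop, Real.exp (-(p i * (Nat.log 2 i / 8 / w : ℕ) / (4 * (b : ℝ) ^ 2))) ≤
      ε / 3 := by
    have h1 : Tendsto (fun i : ℕ => p i * (Nat.log 2 i / 8 / w : ℕ) / (4 * (b : ℝ) ^ 2))
        atTop atTop := by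
      apply Tendsto.atTop_div_const (by positivity)
      have h2 : ∀ i : ℕ, p i * Nat.log 2 i * (1 / (8 * w)) - 1 / 2 ≤
          p i * (Nat.log 2 i / 8 / w : ℕ) := by
        intro i
        have h3 : (Nat.log 2 i : ℝ) / (8 * w) - 1 ≤ ((Nat.log 2 i / 8 / w : ℕ) : ℝ) := by
          rw [Nat.div_div_eq_div_mul]
          have h4 := Nat.lt_div_mul_add (a := Nat.log 2 i) (b := 8 * w) (by omega)
          have h5 : (Nat.log 2 i : ℝ) < ((Nat.log 2 i / (8 * w) : ℕ) : ℝ) * (8 * w) + 8 * w := by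
            exact_mod_cast h4
          have hw0 : (0 : ℝ) < 8 * w := by
            have : (0 : ℝ) < w := by exact_mod_cast (by omega : 0 < w)
            positivity
          rw [sub_le_iff_le_add, div_le_iff₀ hw0]
          nlinarith
        calc p i * Nat.log 2 i * (1 / (8 * w)) - 1 / 2 ≤ p i * Nat.log 2 i * (1 / (8 * w)) - p i := by
              linarith [hp1 i]
          _ = p i * ((Nat.log 2 i : ℝ) / (8 * w) - 1) := by ring
          _ ≤ _ := mul_le_mul_of_nonneg_left h3 (hp0 i)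
      refine tendsto_atTop_mono h2 ?_
      apply tendsto_atTop_add_const_right
      apply Tendsto.atTop_mul_const _ hp
      have : (0 : ℝ) < w := by exact_mod_cast (by omega : 0 < w)
      positivity
    have h2 := Real.tendsto_exp_atBot.comp (tendsto_neg_atTop_atBot.comp h1)
    have h3 := h2.eventually (eventually_le_nhds (by positivity : (0 : ℝ) < ε / 3))
    exact h3
  filter_upwards [hE, tendsto_atTop.1 hk (C1 + C2 + 2), hpow.eventually_ge_atTop (6 / ε),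
    eventually_ge_atTop 1] with i h1 h2 h3 h4
  set k := Nat.log 2 i / 8 with hkd
  set l := k / w with hl
  have hlk : w * l ≤ k := by rw [hl]; exact Nat.mul_div_le _ _
  have hpl : (n₀ + 1) ^ l ≤ 2 ^ k := by
    calc (n₀ + 1) ^ l ≤ (2 ^ w) ^ l := Nat.pow_le_pow_left hw2 l
      _ = 2 ^ (w * l) := by rw [pow_mul]
      _ ≤ 2 ^ k := Nat.pow_le_pow_right (by norm_num) hlk
  have hk2 : k < 2 ^ k := Nat.lt_two_pow_self
  have e4 : 4 ^ k = 2 ^ k * 2 ^ k := by rw [← mul_pow]; norm_num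
  have e16 : 16 ^ k = 4 ^ k * 4 ^ k := by rw [← mul_pow]; norm_num
  have hr : (n₀ + 1) ^ l * (C1 + 1) + C2 ≤ 4 ^ k := by
    rw [e4]
    calc (n₀ + 1) ^ l * (C1 + 1) + C2 ≤ 2 ^ k * (C1 + 1) + 2 ^ k * C2 := by
          apply Nat.add_le_add (Nat.mul_le_mul_right _ hpl)
          exact Nat.le_mul_of_pos_left _ (Nat.pow_pos (by norm_num))
      _ = 2 ^ k * (C1 + C2 + 1) := by ring
      _ ≤ 2 ^ k * 2 ^ k := Nat.mul_le_mul_left _ (by omega)
  have hR : (n₀ + 1) ^ l * (C1 + 4 ^ k + 1) ≤ 16 ^ k := by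
    have h5 : C1 + 1 ≤ 4 ^ k := by
      have : 2 ^ k ≤ 4 ^ k := Nat.pow_le_pow_left (by norm_num) k
      omega
    calc (n₀ + 1) ^ l * (C1 + 4 ^ k + 1) ≤ 2 ^ k * (2 * 4 ^ k) := Nat.mul_le_mul hpl (by omega)
      _ = (2 * 2 ^ k) * 4 ^ k := by ring
      _ ≤ 4 ^ k * 4 ^ k := by
          apply Nat.mul_le_mul_right
          rw [e4]
          apply Nat.mul_le_mul_right
          omega
      _ = 16 ^ k := e16.symm
  intro c y σ hσ
  refine (block_moment b hb x n₀ H h hh C1 C2 hC1 hC2 (4 ^ k) (16 ^ k) l hr hR (p i) (hp0 i) (hp1 i)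
    (i ^ 2) (2 * i + 1) c y σ hσ).trans ?_
  set M : ℝ := ((2 * i + 1 : ℕ) : ℝ) with hM
  have hM1 : (1 : ℝ) ≤ M := by rw [hM]; exact_mod_cast (by omega : 1 ≤ 2 * i + 1)
  set R : ℝ := (16 : ℝ) ^ k with hRd
  have hR1 : (1 : ℝ) ≤ R := one_le_pow₀ (by norm_num)
  have hRi : R * R ≤ i := by
    have h5 : 16 ^ k * 16 ^ k ≤ i := by
      have h6 : 16 ^ k * 16 ^ k = 2 ^ (8 * k) := by
        rw [← mul_pow, pow_mul]; norm_num
      rw [h6]
      calc 2 ^ (8 * k) ≤ 2 ^ Nat.log 2 i := Nat.pow_le_pow_right (by norm_num) (by omega)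
        _ ≤ i := Nat.pow_log_le_self 2 (by omega)
    rw [hRd]
    exact_mod_cast h5
  have hMR : 2 * (R * R) ≤ M := by
    rw [hM]; push_cast; linarith
  have h7 : 6 ≤ ε * R := by
    rw [div_le_iff₀ hε] at h3
    linarith
  have i1 : M + 2 * R * M ≤ ε / 3 * M ^ 2 + ε / 3 * M ^ 2 := by
    have j1 : M ≤ R * M := by nlinarith
    have j2 : 3 * R * M ≤ ε / 2 * (R * R) * M := by
      have : 3 * R ≤ ε / 2 * (R * R) := by nlinarith
      nlinarith
    have j3 : ε / 2 * (R * R) * M ≤ ε / 4 * M * M := by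
      have : ε / 2 * (R * R) ≤ ε / 4 * M := by nlinarith
      nlinarith
    nlinarith
  have i2 : M ^ 2 * Real.exp (-(p i * l / (4 * (b : ℝ) ^ 2))) ≤ M ^ 2 * (ε / 3) :=
    mul_le_mul_of_nonneg_left h1 (by positivity)
  push_cast
  rw [← hRd]
  linarith

end Pool.Agent.Helper5.PiFew
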