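import Mathlib
import Pool.Agent.Helper5.PiFew.Small

/-!
The construction of the places which are changed.
-/

set_option autoImplicit false

open Finset Filter Topology

namespace Pool.Agent.Helper5.PiFew

open Pool.Agent.H332R2.Lit (e e_add norm_e conj_e norm_one_sub_e)
open Pool.Agent.Q77.Cos (W)

/-- change a digit by one -/
def flip {b : ℕ} (v : Fin b) : Fin b :=
  if h : (v : ℕ) + 1 < b then ⟨v + 1, h⟩ else ⟨v - 1, by have := v.isLt; omega⟩

/-- the change -/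
noncomputable def sg {b : ℕ} (v : Fin b) : ℝ := ((flip v : ℕ) : ℝ) - ((v : ℕ) : ℝ)

lemma sg_eq {b : ℕ} (hb : 2 ≤ b) (v : Fin b) : sg v = 1 ∨ sg v = -1 := by
  unfold sg flip
  split_ifs with h
  · left; push_cast; ring
  · right
    have h1 : 1 ≤ (v : ℕ) := by omega
    rw [Nat.cast_sub h1]
    push_cast; ring

open Classical in
/-- change the digits at the places in `A` -/
noncomputable def chg {b : ℕ} (A : Set ℕ) (d : ℕ → Fin b) (j : ℕ) : Fin b :=
  if j ∈ A then flip (d j) else d j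

lemma chg_mem {b : ℕ} (A : Set ℕ) (d : ℕ → Fin b) (j : ℕ) (h : j ∈ A) :
    chg A d j = flip (d j) := by
  unfold chg; rw [if_pos h]

lemma chg_notMem {b : ℕ} (A : Set ℕ) (d : ℕ → Fin b) (j : ℕ) (h : j ∉ A) :
    chg A d j = d j := by
  unfold chg; rw [if_neg h]

lemma ofDigits_union {b : ℕ} (A : Set ℕ) (F : Finset ℕ) (hF : ∀ j ∈ F, j ∉ A) (d : ℕ → Fin b) :
    Real.ofDigits (chg (A ∪ (F : Set ℕ)) d) =
      Real.ofDigits (chg A d) + ∑ j ∈ F, sg (d j) / (b : ℝ) ^ (j + 1) := by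
  classical
  have h1 : Real.ofDigits (chg (A ∪ (F : Set ℕ)) d) - Real.ofDigits (chg A d) =
      ∑' j, (Real.ofDigitsTerm (chg (A ∪ (F : Set ℕ)) d) j - Real.ofDigitsTerm (chg A d) j) := by
    unfold Real.ofDigits
    rw [Summable.tsum_sub Real.summable_ofDigitsTerm Real.summable_ofDigitsTerm]
  have h2 : ∑' j, (Real.ofDigitsTerm (chg (A ∪ (F : Set ℕ)) d) j - Real.ofDigitsTerm (chg A d) j) =
      ∑ j ∈ F, sg (d j) / (b : ℝ) ^ (j + 1) := by
    rw [tsum_eq_sum (s := F)]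
    · refine Finset.sum_congr rfl fun j hj => ?_
      have h3 : j ∉ A := hF j hj
      unfold Real.ofDigitsTerm sg
      rw [chg_mem _ _ _ (Set.mem_union_right _ (by exact_mod_cast hj)), chg_notMem _ _ _ h3]
      rw [← sub_mul, div_eq_mul_inv]
    · intro j hj
      unfold Real.ofDigitsTerm
      by_cases h3 : j ∈ A
      · rw [chg_mem _ _ _ (Set.mem_union_left _ h3), chg_mem _ _ _ h3, sub_self]
      · rw [chg_notMem (A ∪ (F : Set ℕ)), chg_notMem _ _ _ h3, sub_self]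
        rintro (h4 | h4)
        · exact h3 h4
        · exact hj (by exact_mod_cast h4)
  rw [h2] at h1
  linarith

/-- the sum over the `i`-th block -/
noncomputable def T (b : ℕ) (h : ℤ) (x c : ℝ) (i : ℕ) (y : ℝ) : ℂ :=
  ∑ n ∈ Ico (i ^ 2) (i ^ 2 + (2 * i + 1)), e (h * ((b : ℝ) ^ n * (x * y + c)))

lemma choose (b : ℕ) (hb : 2 ≤ b) (i : ℕ) (p : ℝ) (hp0 : 0 < p) (hp1 : p ≤ 1 / 2) (s : ℕ)
    (hs : 1 ≤ s) (hh : ℕ → ℤ) (xx cc : ℕ → ℝ) (dd : ℕ → ℕ → Fin b)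
    (HS : ∀ l < s, Sm b (xx l) (hh l) p i (1 / (4 * (s : ℝ) ^ 3)))
    (A : Set ℕ) (hA : ∀ j ∈ A, j < i ^ 2) :
    ∃ F : Finset ℕ, F ⊆ Ico (i ^ 2) (i ^ 2 + (2 * i + 1)) ∧
      (#F : ℝ) ≤ 2 * p * ((2 * i + 1 : ℕ) : ℝ) ∧
      ∀ l < s, ‖T b (hh l) (xx l) (cc l) i (Real.ofDigits (chg (A ∪ (F : Set ℕ)) (dd l)))‖ ≤
        ((2 * i + 1 : ℕ) : ℝ) / s := by
  classical
  set B := Ico (i ^ 2) (i ^ 2 + (2 * i + 1)) with hB
  set M : ℝ := ((2 * i + 1 : ℕ) : ℝ) with hM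
  have hM0 : (0 : ℝ) < M := by rw [hM]; exact_mod_cast (by omega : 0 < 2 * i + 1)
  have hs0 : (0 : ℝ) < s := by exact_mod_cast hs
  have hcard : (#B : ℝ) = M := by rw [hB, Nat.card_Ico, hM]; congr 1; omega
  set Φ : Finset ℕ → ℝ := fun F => (#F : ℝ) / (2 * p * M) +
    ∑ l ∈ range s, ‖T b (hh l) (xx l) (cc l) i (Real.ofDigits (chg (A ∪ (F : Set ℕ)) (dd l)))‖ ^ 2 *
      ((s : ℝ) ^ 2 / M ^ 2) with hΦ
  have hmean : ∑ F ∈ B.powerset, wt p B F * Φ F ≤ 3 / 4 := by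
    have h1 : ∑ F ∈ B.powerset, wt p B F * Φ F =
        (∑ F ∈ B.powerset, wt p B F * (#F : ℝ)) / (2 * p * M) +
        ∑ l ∈ range s, (∑ F ∈ B.powerset, wt p B F *
          ‖T b (hh l) (xx l) (cc l) i (Real.ofDigits (chg (A ∪ (F : Set ℕ)) (dd l)))‖ ^ 2) *
          ((s : ℝ) ^ 2 / M ^ 2) := by
      simp only [hΦ, mul_add, Finset.sum_add_distrib, Finset.mul_sum, Finset.sum_mul,
        Finset.sum_div]
      congr 1
      · refine Finset.sum_congr rfl fun F _ => by ring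
      · rw [Finset.sum_comm]
        refine Finset.sum_congr rfl fun F _ => ?_
        refine Finset.sum_congr rfl fun l _ => by ring
    rw [h1, sum_wt_card, hcard]
    have h2 : p * M / (2 * p * M) = 1 / 2 := by field_simp
    rw [h2]
    have h3 : ∀ l ∈ range s, (∑ F ∈ B.powerset, wt p B F *
          ‖T b (hh l) (xx l) (cc l) i (Real.ofDigits (chg (A ∪ (F : Set ℕ)) (dd l)))‖ ^ 2) *
          ((s : ℝ) ^ 2 / M ^ 2) ≤ 1 / (4 * s) := by
      intro l hl
      have h4 := HS l (mem_range.1 hl) (cc l) (Real.ofDigits (chg A (dd l)))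
        (fun j => sg (dd l j)) (fun j => sg_eq hb _)
      have h5 : ∑ F ∈ B.powerset, wt p B F *
          ‖T b (hh l) (xx l) (cc l) i (Real.ofDigits (chg (A ∪ (F : Set ℕ)) (dd l)))‖ ^ 2 ≤
          1 / (4 * (s : ℝ) ^ 3) * M ^ 2 := by
        refine le_trans (le_of_eq ?_) h4
        refine Finset.sum_congr rfl fun F hF => ?_
        rw [ofDigits_union A F (fun j hj hjA => ?_)]
        · rfl
        · have h6 := hA j hjA
          have h7 := mem_powerset.1 hF hj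
          rw [mem_Ico] at h7
          omega
      calc _ ≤ 1 / (4 * (s : ℝ) ^ 3) * M ^ 2 * ((s : ℝ) ^ 2 / M ^ 2) :=
            mul_le_mul_of_nonneg_right h5 (by positivity)
        _ = 1 / (4 * s) := by field_simp
    have h6 := Finset.sum_le_sum h3
    rw [Finset.sum_const, card_range, nsmul_eq_mul] at h6
    have h7 : (s : ℝ) * (1 / (4 * s)) = 1 / 4 := by field_simp
    rw [h7] at h6
    linarith
  obtain ⟨F, hF, hF1⟩ : ∃ F ∈ B.powerset, Φ F < 1 := by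
    by_contra hcon
    push Not at hcon
    have h1 : ∑ F ∈ B.powerset, wt p B F * 1 ≤ ∑ F ∈ B.powerset, wt p B F * Φ F :=
      Finset.sum_le_sum fun F hF =>
        mul_le_mul_of_nonneg_left (hcon F hF) (wt_nonneg p hp0.le (by linarith) B F)
    simp only [mul_one] at h1
    rw [sum_wt] at h1
    linarith
  refine ⟨F, mem_powerset.1 hF, ?_, ?_⟩
  · have h1 : (#F : ℝ) / (2 * p * M) ≤ 1 := by
      have h2 : 0 ≤ ∑ l ∈ range s, ‖T b (hh l) (xx l) (cc l) i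
          (Real.ofDigits (chg (A ∪ (F : Set ℕ)) (dd l)))‖ ^ 2 * ((s : ℝ) ^ 2 / M ^ 2) :=
        Finset.sum_nonneg fun l _ => by positivity
      simp only [hΦ] at hF1
      linarith
    rw [div_le_one (by positivity)] at h1
    exact h1
  · intro l hl
    have h2 : ‖T b (hh l) (xx l) (cc l) i (Real.ofDigits (chg (A ∪ (F : Set ℕ)) (dd l)))‖ ^ 2 *
        ((s : ℝ) ^ 2 / M ^ 2) ≤ ∑ l ∈ range s, ‖T b (hh l) (xx l) (cc l) i
          (Real.ofDigits (chg (A ∪ (F : Set ℕ)) (dd l)))‖ ^ 2 * ((s : ℝ) ^ 2 / M ^ 2) :=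
      Finset.single_le_sum (f := fun l => ‖T b (hh l) (xx l) (cc l) i
          (Real.ofDigits (chg (A ∪ (F : Set ℕ)) (dd l)))‖ ^ 2 * ((s : ℝ) ^ 2 / M ^ 2))
        (fun l _ => by positivity) (mem_range.2 hl)
    have h3 : 0 ≤ (#F : ℝ) / (2 * p * M) := by positivity
    simp only [hΦ] at hF1
    have h4 : (‖T b (hh l) (xx l) (cc l) i (Real.ofDigits (chg (A ∪ (F : Set ℕ)) (dd l)))‖ *
        (s / M)) ^ 2 ≤ 1 ^ 2 := by
      calc _ = ‖T b (hh l) (xx l) (cc l) i (Real.ofDigits (chg (A ∪ (F : Set ℕ)) (dd l)))‖ ^ 2 *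
            ((s : ℝ) ^ 2 / M ^ 2) := by ring
        _ ≤ 1 ^ 2 := by linarith
    have h5 := (pow_le_pow_iff_left₀ (by positivity) (by norm_num) two_ne_zero).1 h4
    rw [le_div_iff₀ hs0]
    rw [mul_div_assoc', div_le_one hM0] at h5
    exact h5

/-- the recursion -/
theorem build (b : ℕ) (hb : 2 ≤ b) (p : ℕ → ℝ) (hp0 : ∀ i, 0 ≤ p i) (hp1 : ∀ i, p i ≤ 1 / 2)
    (s : ℕ → ℕ) (hh : ℕ → ℤ) (xx cc : ℕ → ℝ) (dd : ℕ → ℕ → Fin b)
    (HS : ∀ i, 1 ≤ s i → 0 < p i ∧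
      ∀ l < s i, Sm b (xx l) (hh l) (p i) i (1 / (4 * (s i : ℝ) ^ 3))) :
    ∃ A : Set ℕ, (∀ i, (({j : ℕ | j < i ^ 2 ∧ j ∈ A}.ncard : ℕ) : ℝ) ≤
        ∑ i' ∈ range i, 2 * p i' * ((2 * i' + 1 : ℕ) : ℝ)) ∧
      ∀ i, ∀ l < s i, ∃ A' : Set ℕ, (∀ j < (i + 1) ^ 2, j ∈ A ↔ j ∈ A') ∧
        ‖T b (hh l) (xx l) (cc l) i (Real.ofDigits (chg A' (dd l)))‖ ≤
          ((2 * i + 1 : ℕ) : ℝ) / s i := by
  classical
  have step : ∀ (i : ℕ) (A : Finset ℕ), ∃ F : Finset ℕ, F ⊆ Ico (i ^ 2) (i ^ 2 + (2 * i + 1)) ∧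
      (#F : ℝ) ≤ 2 * p i * ((2 * i + 1 : ℕ) : ℝ) ∧ ((∀ j ∈ A, j < i ^ 2) →
      ∀ l < s i, ‖T b (hh l) (xx l) (cc l) i
        (Real.ofDigits (chg ((A : Set ℕ) ∪ (F : Set ℕ)) (dd l)))‖ ≤
        ((2 * i + 1 : ℕ) : ℝ) / s i) := by
    intro i A
    by_cases h : 1 ≤ s i ∧ ∀ j ∈ A, j < i ^ 2
    · obtain ⟨h1, h2⟩ := HS i h.1
      obtain ⟨F, hF1, hF2, hF3⟩ := choose b hb i (p i) h1 (hp1 i) (s i) h.1 hh xx cc dd h2 (A : Set ℕ)
        (fun j hj => h.2 j (by exact_mod_cast hj))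
      exact ⟨F, hF1, hF2, fun _ => hF3⟩
    · refine ⟨∅, empty_subset _, ?_, fun h1 l hl => ?_⟩
      · rw [card_empty, Nat.cast_zero]
        have := hp0 i
        positivity
      · exact absurd ⟨by omega, h1⟩ h
  choose F hF1 hF2 hF3 using step
  set AA : ℕ → Finset ℕ := fun i => Nat.rec ∅ (fun i A => A ∪ F i A) i with hAA
  have hA0 : AA 0 = ∅ := rfl
  have hAs : ∀ i, AA (i + 1) = AA i ∪ F i (AA i) := fun i => rfl
  have hsq : ∀ i : ℕ, i ^ 2 + (2 * i + 1) = (i + 1) ^ 2 := fun i => by ring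
  have hlt : ∀ i, ∀ j ∈ AA i, j < i ^ 2 := by
    intro i
    induction i with
    | zero => intro j hj; rw [hA0] at hj; simp at hj
    | succ i ih =>
      intro j hj
      rw [hAs, mem_union] at hj
      rcases hj with hj | hj
      · have := ih j hj
        rw [← hsq]; omega
      · have := hF1 i (AA i) hj
        rw [mem_Ico] at this
        rw [← hsq]; exact this.2
  have hmono : ∀ i k, AA i ⊆ AA (i + k) := by
    intro i k
    induction k with
    | zero => exact subset_rfl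
    | succ k ih =>
      rw [← Nat.add_assoc, hAs]
      exact ih.trans subset_union_left
  have hstab : ∀ i k j, j < i ^ 2 → j ∈ AA (i + k) → j ∈ AA i := by
    intro i k j hj
    induction k with
    | zero => exact id
    | succ k ih =>
      rw [← Nat.add_assoc, hAs, mem_union]
      rintro (h | h)
      · exact ih h
      · exfalso
        have h1 := hF1 (i + k) _ h
        rw [mem_Ico] at h1
        have h2 : i ^ 2 ≤ (i + k) ^ 2 := Nat.pow_le_pow_left (by omega) 2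
        omega
  set A : Set ℕ := {j | ∃ i, j ∈ AA i} with hA
  have hiff : ∀ i j, j < i ^ 2 → (j ∈ A ↔ j ∈ (AA i : Set ℕ)) := by
    intro i j hj
    constructor
    · rintro ⟨i', hi'⟩
      rw [mem_coe]
      rcases Nat.le_total i i' with h | h
      · obtain ⟨k, rfl⟩ := Nat.exists_eq_add_of_le h
        exact hstab i k j hj hi'
      · obtain ⟨k, rfl⟩ := Nat.exists_eq_add_of_le h
        exact hmono i' k hi'
    · intro h
      exact ⟨i, h⟩
  refine ⟨A, ?_, ?_⟩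
  · intro i
    have h1 : {j : ℕ | j < i ^ 2 ∧ j ∈ A} = (AA i : Set ℕ) := by
      ext j
      constructor
      · rintro ⟨h1, h2⟩
        exact (hiff i j h1).1 h2
      · intro h2
        exact ⟨hlt i j h2, ⟨i, h2⟩⟩
    rw [h1, Set.ncard_coe_finset]
    induction i with
    | zero => simp [hA0]
    | succ i ih =>
      rw [Finset.sum_range_succ, hAs]
      have h2 : (#(AA i ∪ F i (AA i)) : ℝ) ≤ #(AA i) + #(F i (AA i)) := by
        exact_mod_cast card_union_le _ _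
      have h3 : {j : ℕ | j < i ^ 2 ∧ j ∈ A} = (AA i : Set ℕ) := by
        ext j
        constructor
        · rintro ⟨h1, h2⟩
          exact (hiff i j h1).1 h2
        · intro h2
          exact ⟨hlt i j h2, ⟨i, h2⟩⟩
      have h4 := ih h3
      have h5 := hF2 i (AA i)
      linarith
  · intro i l hl
    refine ⟨(AA i : Set ℕ) ∪ (F i (AA i) : Set ℕ), ?_, hF3 i (AA i) (hlt i) l hl⟩
    intro j hj
    rw [hiff (i + 1) j hj, hAs, coe_union]

end Pool.Agent.Helper5.PiFew
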