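import Mathlib
import Pool.Agent.Helper5.PiFew.Build

/-!
From the blocks to all places, and the number of changes.
-/

set_option autoImplicit false

open Finset Filter Topology

namespace Pool.Agent.Helper5.PiFew

open Pool.Agent.H332R2.Lit (e e_add norm_e conj_e norm_one_sub_e)
open Pool.Agent.Q77.Cos (W)

lemma e_lip (s t : ℝ) : ‖e s - e t‖ ≤ 2 * Real.pi * |s - t| := by
  have h1 : e s = e t * e (s - t) := by rw [← e_add]; congr 1; ring
  have h2 : e s - e t = e t * (e (s - t) - 1) := by rw [h1]; ring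
  rw [h2, norm_mul, norm_e, one_mul]
  have h3 : e (s - t) = Complex.exp (Complex.I * ((2 * Real.pi * (s - t) : ℝ) : ℂ)) := by
    unfold Pool.Agent.H332R2.Lit.e
    congr 1
    push_cast
    ring
  rw [h3]
  refine (Real.norm_exp_I_mul_ofReal_sub_one_le).trans ?_
  rw [Real.norm_eq_abs, abs_mul, abs_of_pos (by positivity : (0 : ℝ) < 2 * Real.pi)]

lemma geom_le (b : ℕ) (hb : 2 ≤ b) (K : ℕ) : ∑ n ∈ range K, (b : ℝ) ^ n ≤ (b : ℝ) ^ K := by
  have hb1 : (2 : ℝ) ≤ b := by exact_mod_cast hb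
  induction K with
  | zero => simp
  | succ K ih =>
    rw [Finset.sum_range_succ, pow_succ]
    have : 0 < (b : ℝ) ^ K := by positivity
    nlinarith

lemma T_close (b : ℕ) (hb : 2 ≤ b) (h : ℤ) (x c : ℝ) (i : ℕ) (y y' : ℝ)
    (hy : |y - y'| ≤ ((b : ℝ) ^ ((i + 1) ^ 2))⁻¹) :
    ‖T b h x c i y‖ ≤ ‖T b h x c i y'‖ + 2 * Real.pi * |(h : ℝ) * x| := by
  have hb0 : (0 : ℝ) < b := by exact_mod_cast (by omega : 0 < b)
  have h1 : ‖T b h x c i y - T b h x c i y'‖ ≤ 2 * Real.pi * |(h : ℝ) * x| := by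
    unfold T
    rw [← Finset.sum_sub_distrib]
    calc _ ≤ ∑ n ∈ Ico (i ^ 2) (i ^ 2 + (2 * i + 1)),
          2 * Real.pi * |(h : ℝ) * x| * ((b : ℝ) ^ ((i + 1) ^ 2))⁻¹ * (b : ℝ) ^ n := by
          refine (norm_sum_le _ _).trans (Finset.sum_le_sum fun n _ => ?_)
          refine (e_lip _ _).trans ?_
          have h2 : (h : ℝ) * ((b : ℝ) ^ n * (x * y + c)) - h * ((b : ℝ) ^ n * (x * y' + c)) =
              h * x * ((b : ℝ) ^ n * (y - y')) := by ring
          rw [h2, abs_mul, abs_mul ((b : ℝ) ^ n), abs_of_pos (pow_pos hb0 n)]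
          have h3 : (b : ℝ) ^ n * |y - y'| ≤ (b : ℝ) ^ n * ((b : ℝ) ^ ((i + 1) ^ 2))⁻¹ :=
            mul_le_mul_of_nonneg_left hy (by positivity)
          calc 2 * Real.pi * (|(h : ℝ) * x| * ((b : ℝ) ^ n * |y - y'|))
              ≤ 2 * Real.pi * (|(h : ℝ) * x| * ((b : ℝ) ^ n * ((b : ℝ) ^ ((i + 1) ^ 2))⁻¹)) := by
                gcongr
            _ = _ := by ring
      _ = 2 * Real.pi * |(h : ℝ) * x| * (((b : ℝ) ^ ((i + 1) ^ 2))⁻¹ *
          ∑ n ∈ Ico (i ^ 2) (i ^ 2 + (2 * i + 1)), (b : ℝ) ^ n) := by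
          rw [← Finset.mul_sum]; ring
      _ ≤ 2 * Real.pi * |(h : ℝ) * x| * 1 := by
          apply mul_le_mul_of_nonneg_left _ (by positivity)
          rw [inv_mul_le_iff₀ (by positivity), mul_one]
          refine le_trans ?_ (geom_le b hb ((i + 1) ^ 2))
          apply Finset.sum_le_sum_of_subset_of_nonneg
          · intro n hn
            rw [mem_Ico] at hn
            rw [mem_range]
            have : (i + 1) ^ 2 = i ^ 2 + (2 * i + 1) := by ring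
            omega
          · intro n _ _
            positivity
      _ = _ := mul_one _
  calc ‖T b h x c i y‖ = ‖T b h x c i y' + (T b h x c i y - T b h x c i y')‖ := by
        congr 1; ring
    _ ≤ _ := (norm_add_le _ _).trans (by linarith)

lemma W_blocks (b : ℕ) (h : ℤ) (x c : ℝ) (y : ℝ) (I : ℕ) :
    W b h (I ^ 2) (x * y + c) = ∑ i ∈ range I, T b h x c i y := by
  unfold Pool.Agent.Q77.Cos.W T
  induction I with
  | zero => simp
  | succ I ih =>
    rw [Finset.sum_range_succ, ← ih, show (I + 1) ^ 2 = I ^ 2 + (2 * I + 1) by ring,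
      Finset.range_eq_Ico, Finset.range_eq_Ico]
    rw [Finset.sum_Ico_consecutive _ (Nat.zero_le _) (by omega)]

lemma sum_odd (I : ℕ) : ∑ i ∈ range I, ((2 * i + 1 : ℕ) : ℝ) = (I : ℝ) ^ 2 := by
  induction I with
  | zero => simp
  | succ I ih => rw [Finset.sum_range_succ, ih]; push_cast; ring

lemma cesaro (u : ℕ → ℝ) (h1 : ∀ i, u i ≤ ((2 * i + 1 : ℕ) : ℝ))
    (h2 : ∀ δ : ℝ, 0 < δ → ∀ᶠ i : ℕ in atTop, u i ≤ δ * ((2 * i + 1 : ℕ) : ℝ)) (δ : ℝ)
    (hδ : 0 < δ) : ∀ᶠ I : ℕ in atTop, ∑ i ∈ range I, u i ≤ δ * (I : ℝ) ^ 2 := by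
  obtain ⟨i₀, hi₀⟩ := eventually_atTop.1 (h2 (δ / 2) (by positivity))
  have hbig : ∀ᶠ I : ℕ in atTop, (i₀ : ℝ) ^ 2 ≤ δ / 2 * (I : ℝ) ^ 2 := by
    have h3 : Tendsto (fun I : ℕ => δ / 2 * (I : ℝ) ^ 2) atTop atTop := by
      apply Tendsto.const_mul_atTop (by positivity)
      exact (tendsto_pow_atTop (by norm_num)).comp tendsto_natCast_atTop_atTop
    exact h3.eventually_ge_atTop _
  filter_upwards [hbig] with I hI
  have h4 : ∀ i ∈ range I, u i ≤ (if i < i₀ then ((2 * i + 1 : ℕ) : ℝ) else 0) +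
      δ / 2 * ((2 * i + 1 : ℕ) : ℝ) := by
    intro i _
    have h5 : 0 ≤ δ / 2 * ((2 * i + 1 : ℕ) : ℝ) := by positivity
    split_ifs with h
    · linarith [h1 i]
    · linarith [hi₀ i (by omega)]
  refine (Finset.sum_le_sum h4).trans ?_
  rw [Finset.sum_add_distrib, ← Finset.mul_sum, sum_odd]
  have h5 : ∑ i ∈ range I, (if i < i₀ then ((2 * i + 1 : ℕ) : ℝ) else 0) ≤ (i₀ : ℝ) ^ 2 := by
    rw [← Finset.sum_filter, ← sum_odd i₀]
    apply Finset.sum_le_sum_of_subset_of_nonneg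
    · intro i hi
      rw [mem_filter] at hi
      exact mem_range.2 hi.2
    · intro i _ _
      positivity
  linarith

theorem weyl_of_blocks (b : ℕ) (h : ℤ) (x c y : ℝ)
    (H : ∀ δ : ℝ, 0 < δ → ∀ᶠ i : ℕ in atTop, ‖T b h x c i y‖ ≤ δ * ((2 * i + 1 : ℕ) : ℝ))
    (δ : ℝ) (hδ : 0 < δ) : ∀ᶠ N : ℕ in atTop, ‖W b h N (x * y + c)‖ ≤ δ * N := by
  have h1 : ∀ i, ‖T b h x c i y‖ ≤ ((2 * i + 1 : ℕ) : ℝ) := by
    intro i
    unfold T
    refine (norm_sum_le _ _).trans ?_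
    simp only [norm_e]
    rw [Finset.sum_const, Nat.card_Ico, nsmul_eq_mul, mul_one]
    exact le_of_eq (by congr 1; omega)
  have h2 := cesaro (fun i => ‖T b h x c i y‖) h1 H (δ / 2) (by positivity)
  have hsq : Tendsto (fun N : ℕ => Nat.sqrt N) atTop atTop := by
    rw [tendsto_atTop]
    intro m
    filter_upwards [eventually_ge_atTop (m ^ 2)] with N hN
    rw [Nat.le_sqrt']
    exact hN
  have h3 : ∀ᶠ N : ℕ in atTop, 4 / δ ≤ (Nat.sqrt N : ℝ) :=
    (tendsto_natCast_atTop_atTop.comp hsq).eventually_ge_atTop _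
  filter_upwards [hsq.eventually h2, h3] with N hN1 hN2
  set I := Nat.sqrt N with hI
  have h4 : I ^ 2 ≤ N := Nat.sqrt_le' N
  have h5 : N < (I + 1) ^ 2 := Nat.lt_succ_sqrt' N
  have h6 := Pool.Agent.Q77.Few.W_step b h (I ^ 2) N h4 (x * y + c)
  rw [W_blocks] at h6
  have h7 := norm_sum_le (range I) (fun i => T b h x c i y)
  have h8 : ((I ^ 2 : ℕ) : ℝ) ≤ N := by exact_mod_cast h4
  have h9 : (N : ℝ) + 1 ≤ (((I + 1) ^ 2 : ℕ) : ℝ) := by exact_mod_cast h5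
  push_cast at h8 h9 h6
  have h10 : 4 ≤ δ * I := by
    rw [div_le_iff₀ hδ] at hN2
    linarith
  have h11 : 2 * (I : ℝ) ≤ δ / 2 * (I : ℝ) ^ 2 := by nlinarith [Nat.cast_nonneg (α := ℝ) I]
  have h12 : δ / 2 * (I : ℝ) ^ 2 ≤ δ / 2 * N := by gcongr
  linarith

/-- the diagonal argument -/
lemma diag (P : ℕ → ℕ → Prop) (h : ∀ s, 1 ≤ s → ∀ᶠ i in atTop, P s i) :
    ∃ s : ℕ → ℕ, Tendsto s atTop atTop ∧ ∀ i, 1 ≤ s i → P (s i) i := by
  classical
  refine ⟨fun i => Nat.findGreatest (fun s => P s i) i, ?_, ?_⟩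
  · rw [tendsto_atTop]
    intro m
    filter_upwards [h (m + 1) (by omega), eventually_ge_atTop (m + 1)] with i h1 h2
    have h3 := Nat.le_findGreatest (P := fun s => P s i) h2 h1
    omega
  · intro i hi
    exact Nat.findGreatest_of_ne_zero (P := fun s => P s i) rfl (by omega)

/-- the total number of changes -/
lemma sum_L (I : ℕ) (hI : 1 ≤ I) :
    ∑ i ∈ range (I + 1), ((2 * i + 1 : ℕ) : ℝ) / ((Nat.log 2 i + 1 : ℕ) : ℝ) ≤
      24 * (I : ℝ) ^ 2 / ((Nat.log 2 I + 1 : ℕ) : ℝ) := by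
  set L : ℝ := ((Nat.log 2 I + 1 : ℕ) : ℝ) with hL
  have hL0 : (0 : ℝ) < L := by rw [hL]; exact_mod_cast (by omega : 0 < Nat.log 2 I + 1)
  set q := Nat.sqrt I with hq
  have hq1 : 1 ≤ q := by rw [hq, Nat.le_sqrt']; omega
  have hq2 : q ^ 2 ≤ I := Nat.sqrt_le' I
  have hq3 : I < (q + 1) ^ 2 := Nat.lt_succ_sqrt' I
  have h1 : ∀ i ∈ range (I + 1), ((2 * i + 1 : ℕ) : ℝ) / ((Nat.log 2 i + 1 : ℕ) : ℝ) ≤
      (if i < q + 1 then ((2 * i + 1 : ℕ) : ℝ) else 0) + 2 / L * ((2 * i + 1 : ℕ) : ℝ) := by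
    intro i _
    have h2 : (0 : ℝ) < ((2 * i + 1 : ℕ) : ℝ) := by exact_mod_cast (by omega : 0 < 2 * i + 1)
    have h3 : (0 : ℝ) < ((Nat.log 2 i + 1 : ℕ) : ℝ) := by
      exact_mod_cast (by omega : 0 < Nat.log 2 i + 1)
    have h4 : 0 ≤ 2 / L * ((2 * i + 1 : ℕ) : ℝ) := by positivity
    split_ifs with h
    · have h5 : ((2 * i + 1 : ℕ) : ℝ) / ((Nat.log 2 i + 1 : ℕ) : ℝ) ≤ ((2 * i + 1 : ℕ) : ℝ) := by
        apply div_le_self h2.le
        exact_mod_cast (by omega : 1 ≤ Nat.log 2 i + 1)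
      linarith
    · have h5 : Nat.log 2 I + 1 ≤ 2 * (Nat.log 2 i + 1) := by
        have h6 : i < 2 ^ (Nat.log 2 i + 1) := Nat.lt_pow_succ_log_self (by norm_num) i
        have h7 : I < 2 ^ (2 * (Nat.log 2 i + 1)) := by
          calc I < (q + 1) ^ 2 := hq3
            _ ≤ i ^ 2 := Nat.pow_le_pow_left (by omega) 2
            _ ≤ (2 ^ (Nat.log 2 i + 1)) ^ 2 := Nat.pow_le_pow_left h6.le 2
            _ = 2 ^ (2 * (Nat.log 2 i + 1)) := by rw [← pow_mul, mul_comm]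
        have h8 := Nat.log_lt_of_lt_pow (by omega) h7
        omega
      have h6 : L ≤ 2 * ((Nat.log 2 i + 1 : ℕ) : ℝ) := by rw [hL]; exact_mod_cast h5
      rw [zero_add, div_le_iff₀ h3, div_mul_eq_mul_div, div_mul_eq_mul_div, le_div_iff₀ hL0]
      nlinarith
  refine (Finset.sum_le_sum h1).trans ?_
  rw [Finset.sum_add_distrib, ← Finset.mul_sum, sum_odd]
  have h2 : ∑ i ∈ range (I + 1), (if i < q + 1 then ((2 * i + 1 : ℕ) : ℝ) else 0) ≤
      ((q + 1 : ℕ) : ℝ) ^ 2 := by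
    rw [← Finset.sum_filter, ← sum_odd (q + 1)]
    apply Finset.sum_le_sum_of_subset_of_nonneg
    · intro i hi
      rw [mem_filter] at hi
      exact mem_range.2 hi.2
    · intro i _ _
      positivity
  have h3 : ((q + 1 : ℕ) : ℝ) ^ 2 ≤ 4 * I := by
    have : (q + 1) ^ 2 ≤ 4 * I := by nlinarith
    exact_mod_cast this
  have h4 : L ≤ I + 1 := by
    have : Nat.log 2 I + 1 ≤ I + 1 := by
      have := Nat.log_le_self 2 I
      omega
    rw [hL]; exact_mod_cast this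
  have hI1 : (1 : ℝ) ≤ I := by exact_mod_cast hI
  rw [le_div_iff₀ hL0]
  have h5 : (∑ i ∈ range (I + 1), (if i < q + 1 then ((2 * i + 1 : ℕ) : ℝ) else 0)) * L ≤
      4 * I * (I + 1) := by
    apply mul_le_mul (h2.trans h3) h4 hL0.le (by positivity)
  have h6 : (2 / L * ((I + 1 : ℕ) : ℝ) ^ 2) * L = 2 * (I + 1) ^ 2 := by
    push_cast; field_simp
  rw [add_mul, h6]
  nlinarith

/-- the densities of the changes -/
theorem densities (f : ℕ → ℝ) (hf : Tendsto (fun N : ℕ => f N * Real.log N / N) atTop atTop) :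
    ∃ p : ℕ → ℝ, (∀ i, 0 ≤ p i) ∧ (∀ i, p i ≤ 1 / 2) ∧
      Tendsto (fun i => p i * Nat.log 2 i) atTop atTop ∧
      ∀ᶠ N : ℕ in atTop, ∑ i ∈ range (Nat.sqrt N + 1), 2 * p i * ((2 * i + 1 : ℕ) : ℝ) ≤ f N := by
  classical
  set Q : ℕ → ℕ → Prop := fun i m => ∀ N : ℕ, i ^ 2 ≤ N → (m : ℝ) * N ≤ f N * Real.log N with hQ
  set a : ℕ → ℕ := fun i => Nat.findGreatest (Q i) (Nat.log 2 i + 1) with ha
  have haL : ∀ i, a i ≤ Nat.log 2 i + 1 := fun i => Nat.findGreatest_le _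
  have hQa : ∀ i, 1 ≤ a i → Q i (a i) := fun i hi =>
    Nat.findGreatest_of_ne_zero rfl (by omega)
  have hmono : ∀ i j, i ≤ j → a i ≤ a j := by
    intro i j hij
    rcases Nat.eq_zero_or_pos (a i) with h | h
    · omega
    · apply Nat.le_findGreatest
      · refine (haL i).trans ?_
        have := Nat.log_mono_right (b := 2) hij
        omega
      · intro N hN
        exact hQa i h N ((Nat.pow_le_pow_left hij 2).trans hN)
  have hainf : Tendsto a atTop atTop := by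
    rw [tendsto_atTop]
    intro m
    obtain ⟨K, hK⟩ := eventually_atTop.1 (hf.eventually_ge_atTop (m : ℝ))
    filter_upwards [eventually_ge_atTop K, eventually_ge_atTop 1,
      tendsto_atTop.1 tendsto_log2 m] with i h1 h2 h3
    apply Nat.le_findGreatest
    · omega
    · intro N hN
      have h4 : K ≤ N := by nlinarith
      have h5 := hK N h4
      have h6 : (0 : ℝ) < N := by
        have : 1 ≤ N := by nlinarith
        exact_mod_cast this
      rw [le_div_iff₀ h6] at h5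
      exact h5
  have hL0 : ∀ i, (0 : ℝ) < ((Nat.log 2 i + 1 : ℕ) : ℝ) := fun i => by
    exact_mod_cast (by omega : 0 < Nat.log 2 i + 1)
  refine ⟨fun i => (a i : ℝ) / (96 * ((Nat.log 2 i + 1 : ℕ) : ℝ)), ?_, ?_, ?_, ?_⟩
  · intro i
    have := hL0 i
    positivity
  · intro i
    rw [div_le_iff₀ (by have := hL0 i; positivity)]
    have h1 : (a i : ℝ) ≤ ((Nat.log 2 i + 1 : ℕ) : ℝ) := by exact_mod_cast haL i
    have := hL0 i
    linarith
  · have h1 : Tendsto (fun i => (a i : ℝ) / 192) atTop atTop :=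
      (tendsto_natCast_atTop_atTop.comp hainf).atTop_div_const (by norm_num)
    refine tendsto_atTop_mono' _ ?_ h1
    filter_upwards [tendsto_atTop.1 tendsto_log2 1] with i hi
    have h2 : ((Nat.log 2 i + 1 : ℕ) : ℝ) ≤ 2 * (Nat.log 2 i : ℝ) := by
      have : Nat.log 2 i + 1 ≤ 2 * Nat.log 2 i := by omega
      exact_mod_cast this
    rw [div_mul_eq_mul_div, div_le_div_iff₀ (by norm_num) (by have := hL0 i; positivity)]
    have h3 : (0 : ℝ) ≤ a i := Nat.cast_nonneg _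
    nlinarith
  · have hsq : Tendsto (fun N : ℕ => Nat.sqrt N) atTop atTop := by
      rw [tendsto_atTop]
      intro m
      filter_upwards [eventually_ge_atTop (m ^ 2)] with N hN
      rw [Nat.le_sqrt']
      exact hN
    filter_upwards [hsq.eventually (hainf.eventually_ge_atTop 1), eventually_ge_atTop 4] with N h1 h2
    set I := Nat.sqrt N with hI
    have hI1 : 1 ≤ I := by rw [hI, Nat.le_sqrt']; omega
    have h4 : I ^ 2 ≤ N := Nat.sqrt_le' N
    have h5 : N < (I + 1) ^ 2 := Nat.lt_succ_sqrt' N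
    have h6 := hQa I h1 N h4
    have hlog : Real.log N ≤ 2 * ((Nat.log 2 I + 1 : ℕ) : ℝ) := by
      have h7 : N ≤ 2 ^ (2 * (Nat.log 2 I + 1)) := by
        have h8 : I < 2 ^ (Nat.log 2 I + 1) := Nat.lt_pow_succ_log_self (by norm_num) I
        calc N ≤ (I + 1) ^ 2 := h5.le
          _ ≤ (2 ^ (Nat.log 2 I + 1)) ^ 2 := Nat.pow_le_pow_left h8 2
          _ = _ := by rw [← pow_mul, mul_comm]
      have h8 : (N : ℝ) ≤ (2 : ℝ) ^ (2 * (Nat.log 2 I + 1)) := by exact_mod_cast h7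
      have h9 : Real.log N ≤ Real.log ((2 : ℝ) ^ (2 * (Nat.log 2 I + 1))) :=
        Real.log_le_log (by exact_mod_cast (by omega : 0 < N)) h8
      rw [Real.log_pow] at h9
      have h10 := Real.log_two_lt_d9
      push_cast at h9 ⊢
      have h11 : (0 : ℝ) ≤ 2 * ((Nat.log 2 I : ℝ) + 1) := by positivity
      nlinarith
    have hlogpos : 0 < Real.log N := Real.log_pos (by exact_mod_cast (by omega : 1 < N))
    have h7 : ∑ i ∈ range (I + 1), 2 * ((a i : ℝ) / (96 * ((Nat.log 2 i + 1 : ℕ) : ℝ))) *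
        ((2 * i + 1 : ℕ) : ℝ) ≤ (a I : ℝ) / 48 *
        ∑ i ∈ range (I + 1), ((2 * i + 1 : ℕ) : ℝ) / ((Nat.log 2 i + 1 : ℕ) : ℝ) := by
      rw [Finset.mul_sum]
      refine Finset.sum_le_sum fun i hi => ?_
      have h8 : (a i : ℝ) ≤ a I := by
        exact_mod_cast hmono i I (by have := mem_range.1 hi; omega)
      have h9 : (0 : ℝ) ≤ ((2 * i + 1 : ℕ) : ℝ) / ((Nat.log 2 i + 1 : ℕ) : ℝ) := by
        have := hL0 i
        positivity
      calc 2 * ((a i : ℝ) / (96 * ((Nat.log 2 i + 1 : ℕ) : ℝ))) * ((2 * i + 1 : ℕ) : ℝ)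
          = (a i : ℝ) / 48 * (((2 * i + 1 : ℕ) : ℝ) / ((Nat.log 2 i + 1 : ℕ) : ℝ)) := by
            have := hL0 i
            field_simp
            ring
        _ ≤ (a I : ℝ) / 48 * (((2 * i + 1 : ℕ) : ℝ) / ((Nat.log 2 i + 1 : ℕ) : ℝ)) := by
            gcongr
    have h8 := sum_L I hI1
    have h9 : (a I : ℝ) / 48 * ∑ i ∈ range (I + 1), ((2 * i + 1 : ℕ) : ℝ) /
        ((Nat.log 2 i + 1 : ℕ) : ℝ) ≤ (a I : ℝ) / 48 * (24 * (I : ℝ) ^ 2 / ((Nat.log 2 I + 1 : ℕ) : ℝ)) :=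
      mul_le_mul_of_nonneg_left h8 (by positivity)
    refine (h7.trans h9).trans ?_
    have h10 : (a I : ℝ) / 48 * (24 * (I : ℝ) ^ 2 / ((Nat.log 2 I + 1 : ℕ) : ℝ)) =
        (a I : ℝ) * (I : ℝ) ^ 2 / (2 * ((Nat.log 2 I + 1 : ℕ) : ℝ)) := by
      have := hL0 I
      field_simp
      ring
    rw [h10]
    have h11 : (a I : ℝ) * (I : ℝ) ^ 2 ≤ a I * N := by
      have : ((I ^ 2 : ℕ) : ℝ) ≤ N := by exact_mod_cast h4
      push_cast at this
      gcongr
    calc (a I : ℝ) * (I : ℝ) ^ 2 / (2 * ((Nat.log 2 I + 1 : ℕ) : ℝ))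
        ≤ (a I : ℝ) * (I : ℝ) ^ 2 / Real.log N := by
          apply div_le_div_of_nonneg_left (by positivity) hlogpos hlog
      _ ≤ a I * N / Real.log N := by gcongr
      _ ≤ f N := by
          rw [div_le_iff₀ hlogpos]
          exact h6

end Pool.Agent.Helper5.PiFew
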