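import Mathlib
import Pool.Agent.Helper5.PiFew.Upper

/-!
Fewer changes do not suffice for a number with rare digits.
-/

set_option autoImplicit false

open Finset Filter Topology

namespace Pool.Agent.Helper5.PiFew

open Pool.Agent.Q77.Few (Nrm head split)

open Classical in
/-- the digit `1` at the places `K ^ i - 1`, the digit `0` elsewhere -/
noncomputable def ek (b K : ℕ) (hb : 2 ≤ b) (j : ℕ) : Fin b :=
  if ∃ i, j + 1 = K ^ i then ⟨1, by omega⟩ else ⟨0, by omega⟩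

lemma ek_pos (b K : ℕ) (hb : 2 ≤ b) (j i : ℕ) (h : j + 1 = K ^ i) : (ek b K hb j : ℕ) = 1 := by
  unfold ek; rw [if_pos ⟨i, h⟩]

lemma ek_neg (b K : ℕ) (hb : 2 ≤ b) (j : ℕ) (h : ∀ i, j + 1 ≠ K ^ i) :
    (ek b K hb j : ℕ) = 0 := by
  unfold ek; rw [if_neg]; rintro ⟨i, hi⟩; exact h i hi

/-- the tails -/
noncomputable def tl {b : ℕ} (d : ℕ → Fin b) (m : ℕ) : ℝ := Real.ofDigits (fun i => d (i + m))

lemma tl_nonneg {b : ℕ} (d : ℕ → Fin b) (m : ℕ) : 0 ≤ tl d m := Real.ofDigits_nonneg _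

lemma tl_le_one {b : ℕ} (d : ℕ → Fin b) (m : ℕ) : tl d m ≤ 1 := Real.ofDigits_le_one _

lemma tl_split {b : ℕ} (d : ℕ → Fin b) (m n : ℕ) :
    tl d m = (∑ i ∈ range n, ((d (i + m) : ℕ) : ℝ) * ((b : ℝ) ^ (i + 1))⁻¹) +
      ((b : ℝ) ^ n)⁻¹ * tl d (m + n) := by
  unfold tl
  rw [Real.ofDigits_eq_sum_add_ofDigits _ n]
  congr 2
  congr 1
  ext i
  congr 2
  omega

lemma fract_le_self' (t : ℝ) (h : 0 ≤ t) : Int.fract t ≤ t := by
  have h1 := Int.floor_nonneg.2 h
  have h2 : (0 : ℝ) ≤ ⌊t⌋ := by exact_mod_cast h1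
  unfold Int.fract
  linarith

lemma fract_pow_mul {b : ℕ} (hb : 2 ≤ b) (d : ℕ → Fin b) (m : ℕ) :
    Int.fract ((b : ℝ) ^ m * Real.ofDigits d) ≤ tl d m := by
  have hb0 : (0 : ℝ) < b := by exact_mod_cast (by omega : 0 < b)
  have h1 := split b (by omega) d m
  have h2 : (b : ℝ) ^ m * Real.ofDigits d = tl d m + ((head b d m : ℕ) : ℤ) := by
    rw [h1]
    unfold tl
    field_simp
    push_cast
    ring
  rw [h2, Int.fract_add_intCast]
  exact fract_le_self' _ (tl_nonneg d m)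

lemma sum_tl {b : ℕ} (hb : 2 ≤ b) (d : ℕ → Fin b) (N : ℕ) :
    ∑ m ∈ range N, tl d m ≤ (∑ m ∈ range N, ((d m : ℕ) : ℝ)) + 1 := by
  have hb1 : (2 : ℝ) ≤ b := by exact_mod_cast hb
  have h1 : ∀ m, (b : ℝ) * tl d m = ((d m : ℕ) : ℝ) + tl d (m + 1) := by
    intro m
    have h2 := tl_split d m 1
    rw [Finset.sum_range_one] at h2
    rw [h2]
    simp only [zero_add, pow_one]
    field_simp
  have h2 : (b : ℝ) * ∑ m ∈ range N, tl d m =
      (∑ m ∈ range N, ((d m : ℕ) : ℝ)) + ∑ m ∈ range N, tl d (m + 1) := by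
    rw [Finset.mul_sum, ← Finset.sum_add_distrib]
    exact Finset.sum_congr rfl fun m _ => h1 m
  have h3 : ∑ m ∈ range N, tl d (m + 1) = ∑ m ∈ range N, tl d m + tl d N - tl d 0 := by
    have h4 := Finset.sum_range_succ (fun m => tl d m) N
    have h5 := Finset.sum_range_succ' (fun m => tl d m) N
    linarith
  have h4 := tl_nonneg d 0
  have h5 := tl_le_one d N
  have h6 : 0 ≤ ∑ m ∈ range N, tl d m := Finset.sum_nonneg fun m _ => tl_nonneg d m
  nlinarith

lemma sum_ek (b K : ℕ) (hb : 2 ≤ b) (hK : 2 ≤ K) (N : ℕ) :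
    ∑ m ∈ range N, ((ek b K hb m : ℕ) : ℝ) ≤ (Nat.log K N : ℝ) + 1 := by
  classical
  have h1 : ∀ m ∈ range N, ((ek b K hb m : ℕ) : ℝ) = if ∃ i, m + 1 = K ^ i then 1 else 0 := by
    intro m _
    by_cases h : ∃ i, m + 1 = K ^ i
    · obtain ⟨i, hi⟩ := h
      rw [ek_pos b K hb m i hi, if_pos ⟨i, hi⟩]; norm_num
    · rw [if_neg h, ek_neg b K hb m (fun i hi => h ⟨i, hi⟩)]; norm_num
  rw [Finset.sum_congr rfl h1, Finset.sum_boole]
  have h2 : (range N).filter (fun m => ∃ i, m + 1 = K ^ i) ⊆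
      (range (Nat.log K N + 1)).image (fun i => K ^ i - 1) := by
    intro m hm
    rw [mem_filter, mem_range] at hm
    obtain ⟨h3, i, hi⟩ := hm
    rw [mem_image]
    refine ⟨i, ?_, by omega⟩
    rw [mem_range]
    have h4 : K ^ i ≤ N := by omega
    have := Nat.le_log_of_pow_le (by omega) h4
    omega
  have h3 := (card_le_card h2).trans card_image_le
  rw [card_range] at h3
  exact_mod_cast h3

lemma fract_sum_le (S : Finset ℕ) (t : ℕ → ℝ) :
    Int.fract (∑ j ∈ S, t j) ≤ ∑ j ∈ S, Int.fract (t j) := by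
  classical
  induction S using Finset.induction_on with
  | empty => simp
  | insert j S hj ih =>
    rw [Finset.sum_insert hj, Finset.sum_insert hj]
    exact (Int.fract_add_le _ _).trans (by linarith)

lemma fract_nat_mul_le (D : ℕ) (t : ℝ) : Int.fract (D * t) ≤ D * Int.fract t := by
  induction D with
  | zero => simp
  | succ D ih =>
    push_cast
    rw [add_mul, add_mul, one_mul, one_mul]
    exact (Int.fract_add_le _ _).trans (by linarith)

lemma geom_div_le (b : ℕ) (hb : 2 ≤ b) (K : ℕ) :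
    ∑ n ∈ range K, (b : ℝ) ^ n / (b : ℝ) ^ K ≤ 1 := by
  have hb0 : (0 : ℝ) < b := by exact_mod_cast (by omega : 0 < b)
  rw [← Finset.sum_div, div_le_one (by positivity)]
  exact geom_le b hb K

/-- the fractional parts of a product -/
lemma sum_fract (b : ℕ) (hb : 2 ≤ b) (x : ℝ) (hx0 : 0 ≤ x) (hx1 : x ≤ 1) (G : ℝ) (N : ℕ)
    (hG : ∑ m ∈ range N, Int.fract ((b : ℝ) ^ m * x) ≤ G) (D : ℕ → Fin b) (Z : ℝ)
    (hZ : (#((range N).filter fun j => D j ≠ ⟨0, by omega⟩) : ℝ) ≤ Z) :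
    ∑ n ∈ range N, Int.fract ((b : ℝ) ^ n * (x * Real.ofDigits D)) ≤ b * Z * (1 + G) + 1 := by
  classical
  have hb0 : (0 : ℝ) < b := by exact_mod_cast (by omega : 0 < b)
  have hb1 : (1 : ℝ) ≤ b := by exact_mod_cast (by omega : 1 ≤ b)
  have hG0 : 0 ≤ G := le_trans (Finset.sum_nonneg fun m _ => Int.fract_nonneg _) hG
  have h1 : ∀ n ∈ range N, Int.fract ((b : ℝ) ^ n * (x * Real.ofDigits D)) ≤
      (∑ j ∈ range N, ((D j : ℕ) : ℝ) * Int.fract ((b : ℝ) ^ n * x / (b : ℝ) ^ (j + 1))) +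
        (b : ℝ) ^ n / (b : ℝ) ^ N := by
    intro n _
    have h2 : Real.ofDigits D = (∑ j ∈ range N, ((D j : ℕ) : ℝ) * ((b : ℝ) ^ (j + 1))⁻¹) +
        ((b : ℝ) ^ N)⁻¹ * tl D N := by
      have := tl_split D 0 N
      unfold tl at this ⊢
      simpa using this
    have h3 : (b : ℝ) ^ n * (x * Real.ofDigits D) =
        (∑ j ∈ range N, ((D j : ℕ) : ℝ) * ((b : ℝ) ^ n * x / (b : ℝ) ^ (j + 1))) +
        x * tl D N * ((b : ℝ) ^ n / (b : ℝ) ^ N) := by
      rw [h2, mul_add, mul_add, Finset.mul_sum, Finset.mul_sum]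
      congr 1
      · refine Finset.sum_congr rfl fun j _ => ?_
        rw [div_eq_mul_inv]; ring
      · rw [div_eq_mul_inv]; ring
    rw [h3]
    refine (Int.fract_add_le _ _).trans (add_le_add ?_ ?_)
    · refine (fract_sum_le _ _).trans (Finset.sum_le_sum fun j _ => ?_)
      exact fract_nat_mul_le _ _
    · have h4 : 0 ≤ x * tl D N := mul_nonneg hx0 (tl_nonneg _ _)
      have h5 : x * tl D N ≤ 1 := by
        have := tl_nonneg D N
        have := tl_le_one D N
        nlinarith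
      have h6 : 0 ≤ (b : ℝ) ^ n / (b : ℝ) ^ N := by positivity
      refine (fract_le_self' _ (by positivity)).trans ?_
      nlinarith
  refine (Finset.sum_le_sum h1).trans ?_
  rw [Finset.sum_add_distrib]
  refine add_le_add ?_ (geom_div_le b hb N)
  rw [Finset.sum_comm]
  have h4 : ∀ j ∈ range N, ∑ n ∈ range N, ((D j : ℕ) : ℝ) *
      Int.fract ((b : ℝ) ^ n * x / (b : ℝ) ^ (j + 1)) ≤
      (if D j ≠ ⟨0, by omega⟩ then b * (1 + G) else 0) := by
    intro j hj
    have hj1 := mem_range.1 hj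
    rw [← Finset.mul_sum]
    have h5 : ∑ n ∈ range N, Int.fract ((b : ℝ) ^ n * x / (b : ℝ) ^ (j + 1)) ≤ 1 + G := by
      have h6 : range N = range (j + 1) ∪ Ico (j + 1) N := by
        rw [range_eq_Ico, range_eq_Ico, Ico_union_Ico_eq_Ico (Nat.zero_le _) (by omega)]
      have h7 : Disjoint (range (j + 1)) (Ico (j + 1) N) := by
        rw [range_eq_Ico]
        exact Ico_disjoint_Ico_consecutive 0 (j + 1) N
      rw [h6, sum_union h7]
      refine add_le_add ?_ ?_
      · refine le_trans (Finset.sum_le_sum fun n _ => ?_) (geom_div_le b hb (j + 1))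
        refine (fract_le_self' _ (by positivity)).trans ?_
        apply div_le_div_of_nonneg_right _ (by positivity)
        have : 0 < (b : ℝ) ^ n := by positivity
        nlinarith
      · refine le_trans ?_ hG
        rw [Finset.sum_Ico_eq_sum_range]
        calc ∑ k ∈ range (N - (j + 1)), Int.fract ((b : ℝ) ^ (j + 1 + k) * x / (b : ℝ) ^ (j + 1))
            = ∑ k ∈ range (N - (j + 1)), Int.fract ((b : ℝ) ^ k * x) := by
              refine Finset.sum_congr rfl fun k _ => ?_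
              congr 1
              rw [pow_add]
              field_simp
          _ ≤ ∑ k ∈ range N, Int.fract ((b : ℝ) ^ k * x) := by
              apply Finset.sum_le_sum_of_subset_of_nonneg
              · intro k hk
                rw [mem_range] at hk ⊢
                omega
              · intro k _ _
                exact Int.fract_nonneg _
    split_ifs with h
    · have h6 : ((D j : ℕ) : ℝ) ≤ b := by exact_mod_cast (D j).isLt.le
      apply mul_le_mul h6 h5 (Finset.sum_nonneg fun n _ => Int.fract_nonneg _) hb0.le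
    · push Not at h
      rw [h]
      simp
  refine (Finset.sum_le_sum h4).trans ?_
  rw [← Finset.sum_filter, Finset.sum_const, nsmul_eq_mul]
  calc _ ≤ Z * (b * (1 + G)) := by gcongr
    _ = b * Z * (1 + G) := by ring

/-- digits of normal numbers are not small -/
lemma normal_fract (b : ℕ) (hb : 2 ≤ b) (z : ℝ) (h : Nrm b z) :
    ∀ᶠ N : ℕ in atTop, (N : ℝ) / (4 * b) ≤ ∑ n ∈ range N, Int.fract ((b : ℝ) ^ n * z) := by
  classical
  have hb0 : (0 : ℝ) < b := by exact_mod_cast (by omega : 0 < b)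
  have hb1 : (2 : ℝ) ≤ b := by exact_mod_cast hb
  have h1 := h 1 (by norm_num) (fun _ => ⟨b - 1, by omega⟩)
  have h2 := h1.eventually (eventually_ge_nhds (a := 1 / (b : ℝ) ^ 1) (b := 1 / (2 * (b : ℝ))) (by
    rw [pow_one]
    apply one_div_lt_one_div_of_lt hb0
    linarith))
  filter_upwards [h2, eventually_ge_atTop 1] with N hN hN1
  have hN0 : (0 : ℝ) < N := by exact_mod_cast hN1
  set S := (range N).filter (fun i : ℕ => ∀ j : Fin 1,
      ⌊z * (b : ℝ) ^ (i + 1 + (j : ℕ))⌋ % b = (((⟨b - 1, by omega⟩ : Fin b) : ℕ) : ℤ)) with hS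
  rw [le_div_iff₀ hN0] at hN
  have h3 : ∀ i ∈ S, (1 : ℝ) / 2 ≤ Int.fract ((b : ℝ) ^ i * z) := by
    intro i hi
    have h4 := (mem_filter.1 hi).2 0
    simp only [Fin.val_zero, add_zero] at h4
    set t : ℝ := (b : ℝ) ^ i * z with ht
    have h5 : z * (b : ℝ) ^ (i + 1) = b * Int.fract t + ((b * ⌊t⌋ : ℤ) : ℝ) := by
      have h6 := Int.floor_add_fract t
      have h7 : z * (b : ℝ) ^ (i + 1) = b * t := by rw [ht]; ring
      rw [h7]
      push_cast
      nlinarith
    rw [h5, Int.floor_add_intCast, Int.add_mul_emod_self_left] at h4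
    have h6 : (0 : ℝ) ≤ b * Int.fract t := mul_nonneg hb0.le (Int.fract_nonneg _)
    have h7 : b * Int.fract t < b := by
      have := Int.fract_lt_one t
      nlinarith
    have h8 : ⌊(b : ℝ) * Int.fract t⌋ < b := by
      rw [Int.floor_lt]
      exact_mod_cast h7
    rw [Int.emod_eq_of_lt (Int.floor_nonneg.2 h6) h8] at h4
    have h9 := Int.floor_le ((b : ℝ) * Int.fract t)
    rw [h4] at h9
    have h10 : (((b - 1 : ℕ) : ℤ) : ℝ) = (b : ℝ) - 1 := by
      rw [Int.cast_natCast, Nat.cast_sub (by omega)]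
      norm_num
    have h11 : ((((⟨b - 1, by omega⟩ : Fin b) : ℕ) : ℤ) : ℝ) = (b : ℝ) - 1 := h10
    rw [h11] at h9
    by_contra hcon
    push Not at hcon
    have h12 : (b : ℝ) * Int.fract t < b * (1 / 2) := by nlinarith
    linarith
  calc (N : ℝ) / (4 * b) = 1 / (2 * (b : ℝ)) * N * (1 / 2) := by field_simp; norm_num
    _ ≤ #S * (1 / 2) := by gcongr
    _ = ∑ _i ∈ S, (1 : ℝ) / 2 := by rw [Finset.sum_const, nsmul_eq_mul]
    _ ≤ ∑ i ∈ S, Int.fract ((b : ℝ) ^ i * z) := Finset.sum_le_sum h3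
    _ ≤ _ := Finset.sum_le_sum_of_subset_of_nonneg (filter_subset _ _)
        fun i _ _ => Int.fract_nonneg _

lemma tl_ek (b K : ℕ) (hb : 2 ≤ b) (hK : 2 ≤ K) (i : ℕ) :
    1 / (b : ℝ) ^ (K ^ (i + 1) - K ^ i) ≤ tl (ek b K hb) (K ^ i) ∧
      tl (ek b K hb) (K ^ i) ≤ 2 / (b : ℝ) ^ (K ^ (i + 1) - K ^ i) := by
  have hb0 : (0 : ℝ) < b := by exact_mod_cast (by omega : 0 < b)
  have hlt : K ^ i < K ^ (i + 1) := Nat.pow_lt_pow_right (by omega) (by omega)
  set s := K ^ (i + 1) - K ^ i with hs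
  have hs1 : 1 ≤ s := by omega
  have h1 := tl_split (ek b K hb) (K ^ i) s
  have h2 : ∑ j ∈ range s, ((ek b K hb (j + K ^ i) : ℕ) : ℝ) * ((b : ℝ) ^ (j + 1))⁻¹ =
      ((b : ℝ) ^ s)⁻¹ := by
    rw [Finset.sum_eq_single (s - 1)]
    · rw [ek_pos b K hb (s - 1 + K ^ i) (i + 1) (by omega)]
      rw [Nat.cast_one, one_mul]
      congr 2
      omega
    · intro j hj hj2
      rw [mem_range] at hj
      rw [ek_neg b K hb, Nat.cast_zero, zero_mul]
      intro i' hi'
      have h3 : K ^ i < K ^ i' := by omega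
      have h4 : K ^ i' < K ^ (i + 1) := by omega
      have h5 := (Nat.pow_lt_pow_iff_right (by omega)).1 h3
      have h6 := (Nat.pow_lt_pow_iff_right (by omega)).1 h4
      omega
    · intro h
      exfalso
      apply h
      rw [mem_range]
      omega
  rw [h2] at h1
  have h3 := tl_nonneg (ek b K hb) (K ^ i + s)
  have h4 := tl_le_one (ek b K hb) (K ^ i + s)
  have h5 : (0 : ℝ) < ((b : ℝ) ^ s)⁻¹ := by positivity
  rw [one_div, div_eq_mul_inv]
  constructor <;> nlinarith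

/-- the number with rare digits is badly approximable in a weak sense -/
lemma ek_measure (b K : ℕ) (hb : 2 ≤ b) (hK : 2 ≤ K) (a q : ℤ) (hq : 1 < q) :
    1 / (q : ℝ) ^ (3 * K ^ 2 + b * K + 2) ≤ |Real.ofDigits (ek b K hb) - a / q| := by
  classical
  have hb0 : (0 : ℝ) < b := by exact_mod_cast (by omega : 0 < b)
  have hb2 : (2 : ℝ) ≤ b := by exact_mod_cast hb
  have hq2 : (2 : ℝ) ≤ q := by exact_mod_cast (by omega : (2 : ℤ) ≤ q)
  have hq0 : (0 : ℝ) < q := by linarith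
  set s : ℕ → ℕ := fun i => K ^ (i + 1) - K ^ i with hs
  have hsK : ∀ i, K ^ i ≤ s i := by
    intro i
    simp only [hs]
    have : 2 * K ^ i ≤ K ^ (i + 1) := by
      rw [pow_succ, mul_comm]
      exact Nat.mul_le_mul_left _ hK
    omega
  have hex : ∃ i, 4 * (q : ℝ) ≤ (b : ℝ) ^ s i := by
    obtain ⟨n, hn⟩ := exists_le_pow b hb (4 * q)
    refine ⟨n, hn.trans (pow_le_pow_right₀ (by linarith) ?_)⟩
    exact le_trans (Nat.lt_pow_self (by omega)).le (hsK n)
  set i := Nat.find hex with hi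
  have hi1 : 4 * (q : ℝ) ≤ (b : ℝ) ^ s i := Nat.find_spec hex
  have hlt : K ^ i < K ^ (i + 1) := Nat.pow_lt_pow_right (by omega) (by omega)
  -- upper bound of the denominator
  have hden : (b : ℝ) ^ (K ^ (i + 1)) ≤ (q : ℝ) ^ (3 * K ^ 2 + b * K) := by
    rcases Nat.eq_zero_or_pos i with h0 | h0
    · rw [h0]
      have h1 : (b : ℝ) ≤ (q : ℝ) ^ b := by
        have h2 : (b : ℝ) ≤ (2 : ℝ) ^ b := by exact_mod_cast (Nat.lt_two_pow_self (n := b)).le
        exact h2.trans (pow_le_pow_left₀ (by norm_num) hq2 b)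
      calc (b : ℝ) ^ (K ^ (0 + 1)) = (b : ℝ) ^ K := by rw [zero_add, pow_one]
        _ ≤ ((q : ℝ) ^ b) ^ K := pow_le_pow_left₀ hb0.le h1 K
        _ = (q : ℝ) ^ (b * K) := by rw [← pow_mul]
        _ ≤ _ := pow_le_pow_right₀ (by linarith) (by omega)
    · have h1 : ¬ 4 * (q : ℝ) ≤ (b : ℝ) ^ s (i - 1) := Nat.find_min hex (by omega)
      push Not at h1
      have h2 : K ^ (i + 1) ≤ K ^ 2 * s (i - 1) := by
        calc K ^ (i + 1) = K ^ 2 * K ^ (i - 1) := by rw [← pow_add]; congr 1; omega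
          _ ≤ _ := Nat.mul_le_mul_left _ (hsK (i - 1))
      have h3 : 4 * (q : ℝ) ≤ (q : ℝ) ^ 3 := by nlinarith [mul_pos hq0 hq0]
      calc (b : ℝ) ^ (K ^ (i + 1)) ≤ (b : ℝ) ^ (K ^ 2 * s (i - 1)) :=
            pow_le_pow_right₀ (by linarith) h2
        _ = ((b : ℝ) ^ s (i - 1)) ^ (K ^ 2) := by rw [← pow_mul, mul_comm]
        _ ≤ ((q : ℝ) ^ 3) ^ (K ^ 2) := pow_le_pow_left₀ (by positivity) (h1.le.trans h3) _
        _ = (q : ℝ) ^ (3 * K ^ 2) := by rw [← pow_mul]
        _ ≤ _ := pow_le_pow_right₀ (by linarith) (by omega)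
  -- the approximation
  obtain ⟨ht1, ht2⟩ := tl_ek b K hb hK i
  set t := tl (ek b K hb) (K ^ i) with ht
  set x := Real.ofDigits (ek b K hb) with hx
  have h1 := split b (by omega) (ek b K hb) (K ^ i)
  set P : ℕ := head b (ek b K hb) (K ^ i) with hP
  have hBpos : (0 : ℝ) < (b : ℝ) ^ (K ^ i) := by positivity
  have h2 : (b : ℝ) ^ (K ^ i) * x = P + t := by
    rw [hx, h1, ht]
    unfold tl
    field_simp
    ring
  set Z : ℤ := q * P - a * (b : ℤ) ^ (K ^ i) with hZ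
  have h3 : (q : ℝ) * (b : ℝ) ^ (K ^ i) * (x - a / q) = Z + q * t := by
    have h4 : (q : ℝ) * (b : ℝ) ^ (K ^ i) * (x - a / q) =
        q * ((b : ℝ) ^ (K ^ i) * x) - a * (b : ℝ) ^ (K ^ i) := by
      field_simp
    rw [h4, h2, hZ]
    push_cast
    ring
  have h4 : (q : ℝ) * (b : ℝ) ^ (K ^ i) * |x - a / q| = |(Z : ℝ) + q * t| := by
    rw [← h3, abs_mul, abs_of_pos (mul_pos hq0 hBpos)]
  have hspos : (0 : ℝ) < (b : ℝ) ^ s i := by positivity
  have hqt : q * t ≤ 1 / 2 := by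
    have h5 : t ≤ 2 / (b : ℝ) ^ s i := ht2
    have h6 : q * (2 / (b : ℝ) ^ s i) ≤ 1 / 2 := by
      rw [mul_div_assoc', div_le_div_iff₀ hspos (by norm_num)]
      linarith
    nlinarith
  have htpos : 0 < t := lt_of_lt_of_le (by positivity) ht1
  have hqt0 : 0 < q * t := mul_pos hq0 htpos
  -- the main inequality
  have main : 1 / ((b : ℝ) ^ (K ^ (i + 1)) * (2 * q)) ≤ |x - a / q| := by
    by_cases hZ0 : Z = 0
    · rw [hZ0, Int.cast_zero, zero_add, abs_of_pos hqt0] at h4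
      have h5 : (b : ℝ) ^ (K ^ i) * |x - a / q| = t := by
        have : q * ((b : ℝ) ^ (K ^ i) * |x - a / q|) = q * t := by linarith
        exact mul_left_cancel₀ hq0.ne' this
      have h6 : (b : ℝ) ^ (K ^ (i + 1)) = (b : ℝ) ^ (K ^ i) * (b : ℝ) ^ s i := by
        rw [← pow_add]; congr 1; simp only [hs]; omega
      rw [div_le_iff₀ (by positivity), h6]
      have h7 : 1 ≤ t * (b : ℝ) ^ s i := by
        rw [div_le_iff₀ hspos] at ht1
        exact ht1
      calc (1 : ℝ) ≤ t * (b : ℝ) ^ s i := h7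
        _ ≤ t * (b : ℝ) ^ s i * (2 * q) := by
          have h8 : 0 ≤ t * (b : ℝ) ^ s i := by positivity
          nlinarith
        _ = |x - a / q| * ((b : ℝ) ^ (K ^ i) * (b : ℝ) ^ s i * (2 * q)) := by
          rw [← h5]; ring
    · have h5 : (1 : ℝ) ≤ |(Z : ℝ)| := by
        exact_mod_cast Int.one_le_abs hZ0
      have h6 : 1 / 2 ≤ |(Z : ℝ) + q * t| := by
        have h7 : |(Z : ℝ)| ≤ |(Z : ℝ) + q * t| + |q * t| := by
          calc |(Z : ℝ)| = |((Z : ℝ) + q * t) - q * t| := by congr 1; ring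
            _ ≤ _ := abs_sub _ _
        rw [abs_of_pos hqt0] at h7
        linarith
      rw [← h4] at h6
      rw [div_le_iff₀ (by positivity)]
      have h7 : (b : ℝ) ^ (K ^ i) ≤ (b : ℝ) ^ (K ^ (i + 1)) :=
        pow_le_pow_right₀ (by linarith) hlt.le
      have h8 : 0 ≤ |x - a / q| := abs_nonneg _
      calc (1 : ℝ) ≤ 2 * (q * (b : ℝ) ^ (K ^ i) * |x - a / q|) := by linarith
        _ = |x - a / q| * ((b : ℝ) ^ (K ^ i) * (2 * q)) := by ring
        _ ≤ |x - a / q| * ((b : ℝ) ^ (K ^ (i + 1)) * (2 * q)) := by gcongr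
  refine le_trans ?_ main
  apply one_div_le_one_div_of_le (by positivity)
  calc (b : ℝ) ^ (K ^ (i + 1)) * (2 * q) ≤ (q : ℝ) ^ (3 * K ^ 2 + b * K) * (q ^ 2) := by
        apply mul_le_mul hden _ (by positivity) (by positivity)
        nlinarith
    _ = _ := by rw [← pow_add]

lemma ek_irrational (b K : ℕ) (hb : 2 ≤ b) (hK : 2 ≤ K) :
    Irrational (Real.ofDigits (ek b K hb)) := by
  rintro ⟨r, hr⟩
  have h1 := ek_measure b K hb hK (2 * r.num) (2 * r.den) (by
    have := r.den_pos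
    omega)
  have h2 : Real.ofDigits (ek b K hb) - ((2 * r.num : ℤ) : ℝ) / ((2 * r.den : ℤ) : ℝ) = 0 := by
    rw [← hr]
    have h3 : ((2 * r.num : ℤ) : ℝ) / ((2 * r.den : ℤ) : ℝ) = (r : ℝ) := by
      have hd : (r.den : ℝ) ≠ 0 := by exact_mod_cast r.den_nz
      rw [Rat.cast_def]
      push_cast
      field_simp
    rw [h3, sub_self]
  rw [h2, abs_zero] at h1
  have h3 : (0 : ℝ) < ((2 * r.den : ℤ) : ℝ) := by
    have := r.den_pos
    exact_mod_cast (by omega : 0 < 2 * r.den)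
  have h4 : 0 < 1 / ((2 * r.den : ℤ) : ℝ) ^ (3 * K ^ 2 + b * K + 2) := by positivity
  linarith

lemma ek_not_liouville (b K : ℕ) (hb : 2 ≤ b) (hK : 2 ≤ K) :
    ¬ Liouville (Real.ofDigits (ek b K hb)) := by
  intro h
  obtain ⟨a, q, hq, h1, h2⟩ := h (3 * K ^ 2 + b * K + 2)
  exact absurd (ek_measure b K hb hK a q hq) (not_le.2 h2)

/-- fewer changes do not suffice -/
theorem lower (b : ℕ) (hb : 2 ≤ b) (f : ℕ → ℝ)
    (H : ∀ x : ℝ, Irrational x → ¬ Liouville x → ∃ D : ℕ → Fin b,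
      (∀ᶠ N : ℕ in atTop, (({j : ℕ | j < N ∧ D j ≠ ⟨0, by omega⟩}.ncard : ℕ) : ℝ) ≤ f N) ∧
      Nrm b (x * Real.ofDigits D)) :
    Tendsto (fun N : ℕ => f N * Real.log N / N) atTop atTop := by
  classical
  have hb0 : (0 : ℝ) < b := by exact_mod_cast (by omega : 0 < b)
  have hb1 : (1 : ℝ) ≤ b := by exact_mod_cast (by omega : 1 ≤ b)
  by_contra hcon
  rw [tendsto_atTop] at hcon
  push Not at hcon
  obtain ⟨C₀, hC₀⟩ := hcon
  set C : ℝ := max C₀ 1 with hC
  have hC1 : 1 ≤ C := le_max_right _ _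
  have hfreq : ∃ᶠ N : ℕ in atTop, f N * Real.log N / N < C :=
    hC₀.mono fun N hN => lt_of_lt_of_le (by simpa using hN) (le_max_left _ _)
  -- the choice of the number
  have hKex : ∃ K : ℕ, 2 ≤ K ∧ 16 * (b : ℝ) ^ 2 * C ≤ Real.log K := by
    have h1 : Tendsto (fun K : ℕ => Real.log K) atTop atTop :=
      Real.tendsto_log_atTop.comp tendsto_natCast_atTop_atTop
    obtain ⟨K, h2, h3⟩ := ((eventually_ge_atTop 2).and (h1.eventually_ge_atTop (16 * (b : ℝ) ^ 2 * C))).exists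
    exact ⟨K, h2, h3⟩
  obtain ⟨K, hK2, hKlog⟩ := hKex
  set x := Real.ofDigits (ek b K hb) with hx
  have hx0 : 0 ≤ x := Real.ofDigits_nonneg _
  have hx1 : x ≤ 1 := Real.ofDigits_le_one _
  obtain ⟨D, hD1, hD2⟩ := H x (ek_irrational b K hb hK2) (ek_not_liouville b K hb hK2)
  have h1 := normal_fract b hb _ hD2
  have hlog : Tendsto (fun N : ℕ => Real.log N) atTop atTop :=
    Real.tendsto_log_atTop.comp tendsto_natCast_atTop_atTop
  obtain ⟨N, hN1, hN2, hN3, hN4, hN5, hN6⟩ := (hfreq.and_eventually (hD1.and (h1.and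
    ((hlog.eventually_ge_atTop (64 * (b : ℝ) ^ 2 * C)).and
      ((eventually_ge_atTop (32 * b)).and (eventually_ge_atTop 2)))))).exists
  have hN0 : (0 : ℝ) < N := by exact_mod_cast (by omega : 0 < N)
  have hlogN : 0 < Real.log N := Real.log_pos (by exact_mod_cast (by omega : 1 < N))
  have hlogK : 0 < Real.log K := Real.log_pos (by exact_mod_cast (by omega : 1 < K))
  have hG : ∑ m ∈ range N, Int.fract ((b : ℝ) ^ m * x) ≤ (Nat.log K N : ℝ) + 2 := by
    calc ∑ m ∈ range N, Int.fract ((b : ℝ) ^ m * x) ≤ ∑ m ∈ range N, tl (ek b K hb) m :=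
          Finset.sum_le_sum fun m _ => fract_pow_mul hb (ek b K hb) m
      _ ≤ (∑ m ∈ range N, ((ek b K hb m : ℕ) : ℝ)) + 1 := sum_tl hb _ N
      _ ≤ _ := by linarith [sum_ek b K hb hK2 N]
  have hZ : (#((range N).filter fun j => D j ≠ ⟨0, by omega⟩) : ℝ) ≤ f N := by
    have h2 : {j : ℕ | j < N ∧ D j ≠ ⟨0, by omega⟩} =
        (((range N).filter fun j => D j ≠ ⟨0, by omega⟩ : Finset ℕ) : Set ℕ) := by
      ext j
      simp
    rw [h2, Set.ncard_coe_finset] at hN2
    exact hN2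
  have h2 := sum_fract b hb x hx0 hx1 _ N hG D (f N) hZ
  have hfN : f N ≤ C * N / Real.log N := by
    rw [le_div_iff₀ hlogN]
    rw [div_lt_iff₀ hN0] at hN1
    exact hN1.le
  have hKN : (Nat.log K N : ℝ) ≤ Real.log N / Real.log K := by
    rw [le_div_iff₀ hlogK]
    have h3 : K ^ Nat.log K N ≤ N := Nat.pow_log_le_self K (by omega)
    have h4 : ((K : ℝ) ^ Nat.log K N) ≤ N := by exact_mod_cast h3
    have h5 := Real.log_le_log (by
      have : (0 : ℝ) < K := by exact_mod_cast (by omega : 0 < K)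
      positivity) h4
    rw [Real.log_pow] at h5
    exact h5
  have hG0 : (0 : ℝ) ≤ 1 + ((Nat.log K N : ℝ) + 2) := by positivity
  have h3 : b * f N * (1 + ((Nat.log K N : ℝ) + 2)) ≤
      b * (C * N / Real.log N) * (Real.log N / Real.log K + 3) := by
    have h4 : b * f N ≤ b * (C * N / Real.log N) := mul_le_mul_of_nonneg_left hfN hb0.le
    have h5 : 1 + ((Nat.log K N : ℝ) + 2) ≤ Real.log N / Real.log K + 3 := by linarith
    have h6 : 0 ≤ b * (C * N / Real.log N) := by positivity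
    exact mul_le_mul h4 h5 hG0 h6
  have h4 : b * (C * N / Real.log N) * (Real.log N / Real.log K + 3) =
      b * C * N / Real.log K + 3 * b * C * N / Real.log N := by
    field_simp
  have h5 : b * C * N / Real.log K ≤ N / (16 * b) := by
    rw [div_le_div_iff₀ hlogK (by positivity)]
    calc b * C * N * (16 * b) = N * (16 * b ^ 2 * C) := by ring
      _ ≤ N * Real.log K := by gcongr
  have h6 : 3 * b * C * N / Real.log N ≤ 3 * (N / (64 * b)) := by
    rw [mul_div_assoc', div_le_div_iff₀ hlogN (by positivity)]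
    calc 3 * b * C * N * (64 * b) = 3 * N * (64 * b ^ 2 * C) := by ring
      _ ≤ 3 * N * Real.log N := by gcongr
  have h7 : (1 : ℝ) ≤ N / (32 * b) := by
    rw [le_div_iff₀ (by positivity), one_mul]
    exact_mod_cast hN5
  have h8 : (N : ℝ) / (4 * b) = 16 * (N / (64 * b)) := by field_simp; norm_num
  have h9 : (N : ℝ) / (16 * b) = 4 * (N / (64 * b)) := by field_simp; norm_num
  have h10 : (N : ℝ) / (32 * b) = 2 * (N / (64 * b)) := by field_simp; norm_num
  have h11 : (0 : ℝ) < N / (64 * b) := by positivity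
  linarith

end Pool.Agent.Helper5.PiFew
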